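import Mathlib

/-!
# The diameter of the genus-preserving chord swap graph is linear

We show that for `n ≥ 3` and `g < n / 2` the graph `G_{n,g}` of chord diagrams with `n` chords and
genus `g` (adjacency: chord swaps) is connected with diameter at most `26 n`.  In particular there
is no lower bound of the form `c (n + g ^ 2)`.

Sketch: a diagram with at least two vertices has a side whose two ends are different vertices; two
swaps nearby produce a leaf (a chord joining two consecutive sides).  The leaf can be moved around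
the polygon.  A leaf at the beginning of a window of seven consecutive sides allows us to split off,
with at most five swaps, either one more leaf or a handle (two crossing chords on four consecutive
sides) followed by a leaf.  This local statement only depends on the first return permutation `π` of
the boundary of the surface obtained by gluing all the other chords, and it is checked for all
possible `π`; there is one exceptional `π`, for which one more chord is taken into account.
Iterating, we reach a normal form (handles, then leaves) with `O(n)` swaps.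
-/

set_option autoImplicit false

namespace Pool.Agent.Results.MP_84806a_co.LinearDiameter

open Equiv

/-! ### The problem -/

/-- A chord diagram with `n` chords on the `2n`-gon: the sides are labelled by `ZMod (2n)` (side `a`
runs from corner `a` to corner `a + 1`), and the perfect matching of the sides is given by a
fixed-point-free involution. -/
structure ChordDiagram (n : ℕ) where
  glue : Perm (ZMod (2 * n))
  invol : ∀ a, glue (glue a) = a
  noFix : ∀ a, glue a ≠ a

/-- The number `V` of classes of corners after the identification: gluing side `a` to side `glue a`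
orientably identifies corner `a` with corner `glue a + 1`. -/
noncomputable def vertexClasses {n : ℕ} (X : ChordDiagram n) : ℕ :=
  Nat.card (Quot fun a b : ZMod (2 * n) => b = X.glue a + 1)

/-- `Y` is a chord swap of `X`: two chords `{a, b}`, `{c, d}` of `X` are replaced by `{a, c}` and
`{b, d}`. -/
def IsChordSwap {n : ℕ} (X Y : ChordDiagram n) : Prop :=
  ∃ a c, c ≠ a ∧ c ≠ X.glue a ∧ Y.glue a = c ∧ Y.glue (X.glue a) = X.glue c ∧
    ∀ b, b ≠ a → b ≠ X.glue a → b ≠ c → b ≠ X.glue c → Y.glue b = X.glue b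

/-- The chord diagrams with `n` chords and genus `g`, where `g = (n + 1 - V) / 2`. -/
abbrev CG (n g : ℕ) := {X : ChordDiagram n // vertexClasses X + 2 * g = n + 1}

/-- The graph `G_{n,g}`. -/
def swapGraph (n g : ℕ) : SimpleGraph (CG n g) :=
  SimpleGraph.fromRel fun X Y => IsChordSwap X.1 Y.1

/-- The largest distance between two diagrams in the same component of `G_{n,g}`. -/
noncomputable def D (n g : ℕ) : ℕ :=
  sSup {d | ∃ X Y : CG n g, (swapGraph n g).Reachable X Y ∧ (swapGraph n g).dist X Y = d}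

/-! ### Orbit counts of permutations -/

section orb

variable {α : Type*}

/-- The number of orbits of a permutation. -/
noncomputable def orb (g : Perm α) : ℕ := Nat.card (Quot fun a b : α => b = g a)

/-- The orbit of a point. -/
def cls (g : Perm α) (a : α) : Quot (fun a b : α => b = g a) := Quot.mk _ a

theorem cls_apply (g : Perm α) (a : α) : cls g (g a) = cls g a :=
  (Quot.sound (r := fun a b : α => b = g a) (a := a) (b := g a) rfl).symm

/-- Removing a non-fixed point from its orbit. -/
theorem orb_excise [Finite α] [DecidableEq α] (g : Perm α) (s : α) (h : g s ≠ s) :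
    orb (swap s (g s) * g) = orb g + 1 := by
  classical
  set g' : Perm α := swap s (g s) * g with hg'
  have g's : g' s = s := by simp [hg']
  have g'a : ∀ a, a ≠ s → g a ≠ s → g' a = g a := by
    intro a ha hga
    have : g a ≠ g s := fun e => ha (g.injective e)
    simp [hg', Equiv.swap_apply_of_ne_of_ne hga this]
  have g'b : ∀ a, g a = s → g' a = g s := by
    intro a hga
    simp [hg', hga]
  let F : Quot (fun a b : α => b = g' a) → Option (Quot (fun a b : α => b = g a)) :=
    Quot.lift (fun a => if a = s then none else some (cls g a)) (by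
      intro a b hab
      by_cases ha : a = s
      · subst ha
        rw [g's] at hab
        subst hab
        rfl
      · by_cases hga : g a = s
        · rw [g'b a hga] at hab
          subst hab
          simp only [ha, h, if_false]
          congr 1
          rw [cls_apply, ← hga, cls_apply]
        · rw [g'a a ha hga] at hab
          subst hab
          simp only [ha, hga, if_false]
          rw [cls_apply])
  let G : Option (Quot (fun a b : α => b = g a)) → Quot (fun a b : α => b = g' a) := fun o =>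
    match o with
    | none => cls g' s
    | some q => Quot.lift (fun a => if a = s then cls g' (g s) else cls g' a) (by
      intro a b hab
      by_cases ha : a = s
      · subst ha
        subst hab
        simp [h]
      · by_cases hga : g a = s
        · subst hab
          simp only [ha, hga, if_false, if_true]
          rw [← g'b a hga, cls_apply]
        · subst hab
          simp only [ha, hga, if_false]
          rw [← g'a a ha hga, cls_apply]) q
  have e : Quot (fun a b : α => b = g' a) ≃ Option (Quot (fun a b : α => b = g a)) :=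
    { toFun := F
      invFun := G
      left_inv := by
        intro q
        induction q using Quot.ind with
        | mk a =>
          by_cases ha : a = s
          · subst ha
            simp [F, G, cls]
          · simp [F, G, ha, cls]
      right_inv := by
        intro o
        match o with
        | none => simp [F, G, cls]
        | some q =>
          induction q using Quot.ind with
          | mk a =>
            by_cases ha : a = s
            · subst ha
              simp [F, G, h, cls]
              exact cls_apply g a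
            · simp [F, G, ha, cls] }
  unfold orb
  rw [Nat.card_congr e, Finite.card_option]

/-- The relation reachable from `p` along `f` with all intermediate points outside `P`. -/
inductive Reach (f : α → α) (P : Set α) (p : α) : α → Prop
  | one : Reach f P p (f p)
  | step {r : α} : Reach f P p r → r ∉ P → Reach f P p (f r)

theorem reach_excise [DecidableEq α] (f : Perm α) (P : Set α) (s : α) (hs : s ∉ P)
    (h : f s ≠ s) (p : α) (hp : p ∈ P) : ∀ r, Reach f P p r →
      (r ≠ s → Reach (swap s (f s) * f : Perm α) P p r) ∧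
      (r = s → Reach (swap s (f s) * f : Perm α) P p (f s)) := by
  classical
  set f' : Perm α := swap s (f s) * f with hf'
  have f'a : ∀ a, a ≠ s → f a ≠ s → f' a = f a := by
    intro a ha hga
    have : f a ≠ f s := fun e => ha (f.injective e)
    simp [hf', Equiv.swap_apply_of_ne_of_ne hga this]
  have f'b : ∀ a, f a = s → f' a = f s := by
    intro a hga
    simp [hf', hga]
  have hps : p ≠ s := fun e => hs (e ▸ hp)
  intro r hr
  induction hr with
  | one =>
    constructor
    · intro h1
      rw [← f'a p hps h1]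
      exact Reach.one
    · intro h1
      rw [← f'b p h1]
      exact Reach.one
  | @step r _ hrP ih =>
    by_cases hrs : r = s
    · have h2 := ih.2 hrs
      subst hrs
      exact ⟨fun _ => h2, fun e => absurd e h⟩
    · have h2 := ih.1 hrs
      constructor
      · intro h1
        rw [← f'a r hrs h1]
        exact Reach.step h2 hrP
      · intro h1
        rw [← f'b r h1]
        exact Reach.step h2 hrP

theorem reach_fixed (f : Perm α) (P : Set α) (hf : ∀ a, a ∉ P → f a = a) (p : α) (hp : p ∈ P) :
    ∀ r, Reach f P p r → r = f p ∧ r ∈ P := by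
  have h0 : f p ∈ P := by
    by_contra h
    have := f.injective (hf _ h)
    rw [this] at h
    exact h hp
  intro r hr
  induction hr with
  | one => exact ⟨rfl, h0⟩
  | step _ h ih => exact absurd ih.2 h

/-- Excising all points outside `P`. -/
theorem excise_all [Finite α] [DecidableEq α] (P : Set α) : ∀ (n : ℕ) (f : Perm α),
    Nat.card {a // a ∉ P ∧ f a ≠ a} = n →
    ∃ f' : Perm α, ∃ K : ℕ, (∀ a, a ∉ P → f' a = a) ∧
      (∀ p ∈ P, ∀ q ∈ P, Reach f P p q → f' p = q) ∧
      (∀ M : Perm α, (∀ a, a ∉ P → M a = a) → orb (f' * M) = orb (f * M) + K ∧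
        ∀ a, cls (f * M) ((f' * M) a) = cls (f * M) a) := by
  classical
  intro n
  induction n using Nat.strong_induction_on with
  | _ n ih =>
  intro f hn
  by_cases hex : ∃ s, s ∉ P ∧ f s ≠ s
  · obtain ⟨s, hsP, hs⟩ := hex
    set f1 : Perm α := swap s (f s) * f with hf1
    have f1s : f1 s = s := by simp [hf1]
    have hlt : Nat.card {a // a ∉ P ∧ f1 a ≠ a} < n := by
      rw [← hn]
      have hsub : ∀ a, a ∉ P ∧ f1 a ≠ a → a ∉ P ∧ f a ≠ a := by
        rintro a ⟨h1, h2⟩
        refine ⟨h1, fun h3 => h2 ?_⟩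
        have has : a ≠ s := by
          rintro rfl
          exact hs h3
        have has' : a ≠ f s := by
          intro e
          have : f a = f s := by rw [h3, ← e]
          exact has (f.injective this)
        simp [hf1, h3, Equiv.swap_apply_of_ne_of_ne has has']
      have : Set.ncard {a | a ∉ P ∧ f1 a ≠ a} < Set.ncard {a | a ∉ P ∧ f a ≠ a} := by
        apply Set.ncard_lt_ncard
        · refine ⟨hsub, fun h => ?_⟩
          exact (h (show s ∈ {a | a ∉ P ∧ f a ≠ a} from ⟨hsP, hs⟩)).2 f1s
        · exact Set.toFinite _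
      exact this
    obtain ⟨f', K, h1, h2, h3⟩ := ih _ hlt f1 rfl
    refine ⟨f', K + 1, h1, ?_, ?_⟩
    · intro p hp q hq hr
      exact h2 p hp q hq ((reach_excise f P s hsP hs p hp q hr).1 (fun e => hsP (e ▸ hq)))
    · intro M hM
      obtain ⟨h4, h5⟩ := h3 M hM
      have h6 : f1 * M = swap s ((f * M) s) * (f * M) := by
        rw [hf1, mul_assoc]
        congr 2
        simp [hM s hsP]
      have h7 : (f * M) s ≠ s := by simpa [hM s hsP] using hs
      have h8 := orb_excise (f * M) s h7
      refine ⟨?_, ?_⟩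
      · rw [h4, h6, h8]
        ring
      · have hc : ∀ a, cls (f * M) ((f1 * M) a) = cls (f * M) a := by
          intro a
          rw [h6]
          set g : Perm α := f * M
          by_cases h9 : a = s
          · subst h9
            simp
          · by_cases h10 : g a = s
            · have : (swap s (g s) * g) a = g s := by simp [h10]
              rw [this, ← h10, cls_apply, cls_apply]
            · have h11 : g a ≠ g s := fun e => h9 (g.injective e)
              have : (swap s (g s) * g) a = g a := by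
                simp [Equiv.swap_apply_of_ne_of_ne h10 h11]
              rw [this, cls_apply]
        -- the orbits of `f1 * M` refine those of `f * M`
        let Φ : Quot (fun a b : α => b = (f1 * M) a) → Quot (fun a b : α => b = (f * M) a) :=
          Quot.lift (fun a => cls (f * M) a) (by
            intro a b hab
            rw [hab, hc])
        intro a
        have := congrArg Φ (h5 a)
        exact this
  · push Not at hex
    refine ⟨f, 0, hex, ?_, ?_⟩
    · intro p hp q hq hr
      exact (reach_fixed f P hex p hp q hr).1.symm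
    · intro M hM
      exact ⟨rfl, fun a => cls_apply _ a⟩

/-- The orbits of a permutation supported on the image of an embedding. -/
theorem orb_embed [Finite α] {β : Type*} [Finite β] (w : β ↪ α) (g : Perm α) (ρ : Perm β)
    (h1 : ∀ i, g (w i) = w (ρ i)) (h2 : ∀ a, a ∉ Set.range w → g a = a) :
    orb g = orb ρ + Nat.card {a // a ∉ Set.range w} := by
  classical
  let F0 : α → Quot (fun a b : β => b = ρ a) ⊕ {a // a ∉ Set.range w} := fun a =>
    if h : a ∈ Set.range w then Sum.inl (cls ρ h.choose) else Sum.inr ⟨a, h⟩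
  have F0w : ∀ i, F0 (w i) = Sum.inl (cls ρ i) := by
    intro i
    have h : w i ∈ Set.range w := ⟨i, rfl⟩
    have : h.choose = i := w.injective h.choose_spec
    simp only [F0, dif_pos h, this]
  have F0o : ∀ a (h : a ∉ Set.range w), F0 a = Sum.inr ⟨a, h⟩ := by
    intro a h
    simp only [F0, dif_neg h]
  let F : Quot (fun a b : α => b = g a) → Quot (fun a b : β => b = ρ a) ⊕ {a // a ∉ Set.range w} :=
    Quot.lift F0 (by
      intro a b hab
      by_cases h : a ∈ Set.range w
      · obtain ⟨i, rfl⟩ := h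
        rw [hab, h1, F0w, F0w, cls_apply]
      · rw [hab, h2 a h])
  let G : Quot (fun a b : β => b = ρ a) ⊕ {a // a ∉ Set.range w} → Quot (fun a b : α => b = g a) :=
    Sum.elim (Quot.lift (fun i => cls g (w i)) (by
      intro i j hij
      rw [hij, ← h1, cls_apply])) (fun a => cls g a.1)
  have e : Quot (fun a b : α => b = g a) ≃
      Quot (fun a b : β => b = ρ a) ⊕ {a // a ∉ Set.range w} :=
    { toFun := F
      invFun := G
      left_inv := by
        intro q
        induction q using Quot.ind with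
        | mk a =>
          by_cases h : a ∈ Set.range w
          · obtain ⟨i, rfl⟩ := h
            change G (F0 (w i)) = _
            rw [F0w]
            rfl
          · change G (F0 a) = _
            rw [F0o a h]
            rfl
      right_inv := by
        intro q
        rcases q with q | a
        · induction q using Quot.ind with
          | mk i =>
            change F0 (w i) = _
            rw [F0w]
            rfl
        · change F0 a.1 = _
          rw [F0o a.1 a.2] }
  unfold orb
  rw [Nat.card_congr e, Nat.card_sum]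

/-- The first return. -/
theorem first_return [Finite α] (f : Perm α) (P : Set α) (p : α) (hp : p ∈ P) :
    ∃ q ∈ P, Reach f P p q := by
  classical
  have hex : ∃ n : ℕ, 1 ≤ n ∧ (f ^ n) p ∈ P := by
    refine ⟨orderOf f, orderOf_pos f, ?_⟩
    rw [pow_orderOf_eq_one]
    exact hp
  have h1 := Nat.find_spec hex
  have h2 : ∀ l, 1 ≤ l → l < Nat.find hex → (f ^ l) p ∉ P := fun l hl hl2 h =>
    Nat.find_min hex hl2 ⟨hl, h⟩
  have h3 : ∀ l, 1 ≤ l → l ≤ Nat.find hex → Reach f P p ((f ^ l) p) := by
    intro l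
    induction l with
    | zero => intro h; omega
    | succ l ih =>
      intro _ hl
      rw [pow_succ', Perm.mul_apply]
      rcases Nat.eq_zero_or_pos l with h4 | h4
      · subst h4
        exact Reach.one
      · exact Reach.step (ih h4 (by omega)) (h2 l h4 (by omega))
  exact ⟨_, h1.2, h3 _ h1.1 le_rfl⟩

/-- The local model. -/
theorem transfer [Finite α] {β : Type*} [Finite β] (w : β ↪ α) (f : Perm α) :
    ∃ π : Perm β, ∃ K : ℤ, (∀ i k, Reach f (Set.range w) (w i) (w k) ↔ π i = k) ∧
      ∀ (M : Perm α) (m : Perm β), (∀ i, M (w i) = w (m i)) → (∀ a, a ∉ Set.range w → M a = a) →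
        (orb (f * M) : ℤ) = orb (π * m) + K ∧
        ∀ i, cls (f * M) (w (π (m i))) = cls (f * M) (w i) := by
  classical
  obtain ⟨f', K, h1, h2, h3⟩ := excise_all (Set.range w) _ f rfl
  have hmem : ∀ i, ∃ k, f' (w i) = w k := by
    intro i
    by_contra h
    push Not at h
    have h4 : f' (w i) ∉ Set.range w := by
      rintro ⟨k, hk⟩
      exact h k hk.symm
    have h5 := f'.injective (h1 _ h4)
    exact h4 ⟨i, h5.symm⟩
  choose p hp using hmem
  have hinj : Function.Injective p := by
    intro i j hij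
    have : f' (w i) = f' (w j) := by rw [hp, hp, hij]
    exact w.injective (f'.injective this)
  let π : Perm β := Equiv.ofBijective p (Finite.injective_iff_bijective.1 hinj)
  have hπ : ∀ i, f' (w i) = w (π i) := hp
  have hfwd : ∀ i k, Reach f (Set.range w) (w i) (w k) → π i = k := by
    intro i k hr
    have := h2 _ ⟨i, rfl⟩ _ ⟨k, rfl⟩ hr
    rw [hπ] at this
    exact w.injective this
  refine ⟨π, (Nat.card {a // a ∉ Set.range w} : ℤ) - K, ?_, ?_⟩
  · intro i k
    refine ⟨hfwd i k, ?_⟩
    rintro rfl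
    obtain ⟨q, hq, hr⟩ := first_return f (Set.range w) (w i) ⟨i, rfl⟩
    obtain ⟨k, rfl⟩ := hq
    have := hfwd i k hr
    rw [this]
    exact hr
  · intro M m hM hM2
    obtain ⟨h4, h5⟩ := h3 M hM2
    have h6 := orb_embed w (f' * M) (π * m) (by
      intro i
      simp [hM, hπ]) (by
      intro a ha
      simp [hM2 a ha, h1 a ha])
    refine ⟨?_, ?_⟩
    · have : orb (f * M) + K = orb (π * m) + Nat.card {a // a ∉ Set.range w} := by
        rw [← h4, h6]
      have h7 : ((orb (f * M) + K : ℕ) : ℤ) =
        ((orb (π * m) + Nat.card {a // a ∉ Set.range w} : ℕ) : ℤ) := by rw [this]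
      push_cast at h7
      linarith
    · intro i
      have := h5 (w i)
      simpa [hM, hπ] using this

end orb

/-! ### Numerical codes -/

section codes

/-- The `i`-th hexadecimal digit. -/
def dg (c i : ℕ) : ℕ := c / 16 ^ i % 16

/-- The code `c` describes the permutation `m`. -/
def Codes {N : ℕ} (c : ℕ) (m : Perm (Fin N)) : Prop := ∀ i : Fin N, dg c i = (m i : ℕ)

/-- Follow the orbit of `i` until it comes back to `i` (`true`) or gets below `i` (`false`). -/
def walk (cp cm i : ℕ) : ℕ → ℕ → Option Bool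
  | 0, _ => none
  | k + 1, x =>
    bif Nat.beq (dg cp (dg cm x)) i then some true
    else bif Nat.blt (dg cp (dg cm x)) i then some false
    else walk cp cm i k (dg cp (dg cm x))

/-- The number of orbit minima below `k`. -/
def cntAux (cp cm N : ℕ) : ℕ → Option ℕ
  | 0 => some 0
  | k + 1 =>
    match walk cp cm k N k with
    | none => none
    | some b =>
      match cntAux cp cm N k with
      | none => none
      | some r => some (bif b then r + 1 else r)

/-- The number of orbits of the product of two coded permutations. -/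
def cnt (N cp cm : ℕ) : Option ℕ := cntAux cp cm N N

theorem walk_spec {N : ℕ} (cp cm : ℕ) (g : Perm (Fin N))
    (hg : ∀ x : Fin N, dg cp (dg cm x) = (g x : ℕ)) (i : Fin N) :
    ∀ (k t : ℕ) (x : Fin N), x = (g ^ t) i → (∀ s ≤ t, i ≤ (g ^ s) i) →
      ∀ b, walk cp cm i k x = some b → (b = true ↔ ∀ s : ℕ, i ≤ (g ^ s) i) := by
  intro k
  induction k with
  | zero => intro t x _ _ b hb; simp [walk] at hb
  | succ k ih =>
    intro t x hx hs b hb
    have hx1 : g x = (g ^ (t + 1)) i := by rw [hx, pow_succ']; rfl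
    simp only [walk, hg] at hb
    by_cases h1 : (g x : ℕ) = i
    · have : Nat.beq (g x : ℕ) i = true := by simpa using h1
      rw [this] at hb
      simp only [cond_true, Option.some.injEq] at hb
      subst hb
      simp only [true_iff]
      have h2 : (g ^ (t + 1)) i = i := by
        rw [← hx1]
        exact Fin.ext h1
      have h3 : ∀ q : ℕ, (g ^ ((t + 1) * q)) i = i := by
        intro q
        rw [pow_mul]
        exact Function.IsFixedPt.perm_pow h2 q
      intro s
      have h4 : s = s % (t + 1) + (t + 1) * (s / (t + 1)) := (Nat.mod_add_div _ _).symm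
      rw [h4, pow_add, Perm.mul_apply, h3]
      exact hs _ (Nat.lt_succ_iff.1 (Nat.mod_lt _ (Nat.succ_pos t)))
    · have : Nat.beq (g x : ℕ) i = false := by
        rw [Bool.eq_false_iff]
        exact fun h => h1 (Nat.eq_of_beq_eq_true h)
      rw [this] at hb
      simp only [cond_false] at hb
      by_cases h2 : (g x : ℕ) < i
      · have : Nat.blt (g x : ℕ) i = true := by simpa [Nat.blt_eq] using h2
        rw [this] at hb
        simp only [cond_true, Option.some.injEq] at hb
        subst hb
        simp only [Bool.false_eq_true, false_iff, not_forall]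
        refine ⟨t + 1, ?_⟩
        rw [← hx1, not_le]
        exact h2
      · have : Nat.blt (g x : ℕ) i = false := by
          rw [Bool.eq_false_iff]
          simpa [Nat.blt_eq] using h2
        rw [this] at hb
        simp only [cond_false] at hb
        apply ih (t + 1) (g x) hx1 _ b hb
        intro s hst
        rcases Nat.lt_or_ge t s with h3 | h3
        · have : s = t + 1 := by omega
          subst this
          rw [← hx1]
          exact not_lt.1 h2
        · exact hs s h3

theorem cntAux_spec {N : ℕ} (cp cm : ℕ) (g : Perm (Fin N))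
    (hg : ∀ x : Fin N, dg cp (dg cm x) = (g x : ℕ)) :
    ∀ k, k ≤ N → ∀ r, cntAux cp cm N k = some r →
      Nat.card {i : Fin N // (i : ℕ) < k ∧ ∀ s : ℕ, i ≤ (g ^ s) i} = r := by
  classical
  intro k
  induction k with
  | zero =>
    intro _ r hr
    simp only [cntAux, Option.some.injEq] at hr
    subst hr
    simp
  | succ k ih =>
    intro hk r hr
    simp only [cntAux] at hr
    cases hw : walk cp cm k N k with
    | none => simp [hw] at hr
    | some b =>
      cases hc : cntAux cp cm N k with
      | none => simp [hw, hc] at hr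
      | some r' =>
        simp only [hw, hc, Option.some.injEq] at hr
        have h1 := ih (by omega) r' hc
        have h2 := walk_spec cp cm g hg ⟨k, hk⟩ N 0 ⟨k, hk⟩ rfl (by
          intro s hs
          have : s = 0 := by omega
          subst this
          exact le_refl _) b hw
        have e : ∀ k' : ℕ, Nat.card {i : Fin N // (i : ℕ) < k' ∧ ∀ s : ℕ, i ≤ (g ^ s) i} =
            (Finset.univ.filter (fun i : Fin N => (i : ℕ) < k' ∧ ∀ s : ℕ, i ≤ (g ^ s) i)).card := by
          intro k'
          rw [Nat.card_eq_fintype_card, Fintype.card_subtype]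
        rw [e] at h1 ⊢
        rw [← hr]
        cases b with
        | true =>
          have h3 := h2.1 rfl
          have : Finset.univ.filter (fun i : Fin N => (i : ℕ) < k + 1 ∧ ∀ s : ℕ, i ≤ (g ^ s) i) =
              insert ⟨k, hk⟩ (Finset.univ.filter
                (fun i : Fin N => (i : ℕ) < k ∧ ∀ s : ℕ, i ≤ (g ^ s) i)) := by
            ext i
            simp only [Finset.mem_filter, Finset.mem_univ, true_and, Finset.mem_insert]
            constructor
            · rintro ⟨h4, h5⟩
              by_cases h6 : (i : ℕ) = k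
              · left; exact Fin.ext h6
              · right; exact ⟨by omega, h5⟩
            · rintro (h4 | ⟨h4, h5⟩)
              · subst h4
                exact ⟨Nat.lt_succ_self k, h3⟩
              · exact ⟨by omega, h5⟩
          rw [this, Finset.card_insert_of_notMem (by simp), h1]
          rfl
        | false =>
          have h3 : ¬ ∀ s : ℕ, (⟨k, hk⟩ : Fin N) ≤ (g ^ s) ⟨k, hk⟩ := fun h => by
            have := h2.2 h
            simp at this
          have : Finset.univ.filter (fun i : Fin N => (i : ℕ) < k + 1 ∧ ∀ s : ℕ, i ≤ (g ^ s) i) =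
              (Finset.univ.filter
                (fun i : Fin N => (i : ℕ) < k ∧ ∀ s : ℕ, i ≤ (g ^ s) i)) := by
            ext i
            simp only [Finset.mem_filter, Finset.mem_univ, true_and]
            constructor
            · rintro ⟨h4, h5⟩
              by_cases h6 : (i : ℕ) = k
              · exfalso
                apply h3
                have : i = ⟨k, hk⟩ := Fin.ext h6
                rw [← this]
                exact h5
              · exact ⟨by omega, h5⟩
            · rintro ⟨h4, h5⟩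
              exact ⟨by omega, h5⟩
          rw [this, h1]
          rfl

theorem sameCycle_of_cls {α : Type*} (g : Perm α) {i j : α} (h : cls g i = cls g j) :
    g.SameCycle i j := by
  have := congrArg (Quot.lift (fun b => g.SameCycle i b) (by
    intro a b hab
    subst hab
    simp)) h
  change g.SameCycle i i = g.SameCycle i j at this
  rw [← this]

theorem cls_pow {α : Type*} (g : Perm α) (i : α) (s : ℕ) : cls g ((g ^ s) i) = cls g i := by
  induction s with
  | zero => rfl
  | succ s ih => rw [pow_succ', Perm.mul_apply, cls_apply, ih]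

theorem orb_eq_card_min {N : ℕ} (g : Perm (Fin N)) :
    orb g = Nat.card {i : Fin N // (i : ℕ) < N ∧ ∀ s : ℕ, i ≤ (g ^ s) i} := by
  unfold orb
  symm
  apply Nat.card_eq_of_bijective (fun i => cls g i.1)
  constructor
  · rintro ⟨i, _, hi⟩ ⟨j, _, hj⟩ h
    have h1 : cls g i = cls g j := h
    obtain ⟨s, hs⟩ := (sameCycle_of_cls g h1).exists_nat_pow_eq
    obtain ⟨t, ht⟩ := (sameCycle_of_cls g h1).symm.exists_nat_pow_eq
    apply Subtype.ext
    have h2 : i ≤ j := by
      have := hi s
      rwa [hs] at this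
    have h3 : j ≤ i := by
      have := hj t
      rwa [ht] at this
    exact le_antisymm h2 h3
  · intro q
    induction q using Quot.ind with
    | mk a =>
      have hne : (Set.range fun s : ℕ => (g ^ s) a).Nonempty := ⟨_, 0, rfl⟩
      obtain ⟨b, ⟨s, hs⟩, hb⟩ := WellFounded.has_min (wellFounded_lt (α := Fin N)) _ hne
      have hs' : (g ^ s) a = b := hs
      refine ⟨⟨b, b.2, ?_⟩, ?_⟩
      · intro t
        have := hb ((g ^ t) b) ⟨t + s, by
          change (g ^ (t + s)) a = _
          rw [pow_add, Perm.mul_apply, hs']⟩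
        exact not_lt.1 this
      · change cls g b = cls g a
        rw [← hs', cls_pow]

theorem cnt_spec {N : ℕ} (cp cm : ℕ) (π m : Perm (Fin N)) (hp : Codes cp π) (hm : Codes cm m)
    (r : ℕ) (h : cnt N cp cm = some r) : orb (π * m) = r := by
  have hg : ∀ x : Fin N, dg cp (dg cm x) = ((π * m) x : ℕ) := by
    intro x
    rw [hm x, hp (m x)]
    rfl
  rw [orb_eq_card_min, cntAux_spec cp cm (π * m) hg N le_rfl r h]

/-- The code of a function. -/
def codeF (d : ℕ → ℕ) (k : ℕ) : ℕ := ∑ i ∈ Finset.range k, d i * 16 ^ i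

theorem codeF_lt (d : ℕ → ℕ) (k : ℕ) (h : ∀ i < k, d i < 16) : codeF d k < 16 ^ k := by
  induction k with
  | zero => simp [codeF]
  | succ k ih =>
    have h1 := ih (fun i hi => h i (by omega))
    have h2 := h k (by omega)
    unfold codeF at h1 ⊢
    rw [Finset.sum_range_succ, pow_succ]
    nlinarith [Nat.pos_of_ne_zero (pow_ne_zero k (by norm_num : (16 : ℕ) ≠ 0))]

theorem dg_codeF (d : ℕ → ℕ) (k : ℕ) (h : ∀ i < k, d i < 16) (j : ℕ) (hj : j < k) :
    dg (codeF d k) j = d j := by
  induction k with
  | zero => omega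
  | succ k ih =>
    have hlt := codeF_lt d k (fun i hi => h i (by omega))
    have hs : codeF d (k + 1) = codeF d k + d k * 16 ^ k := by
      unfold codeF
      rw [Finset.sum_range_succ]
    rcases Nat.lt_or_ge j k with h1 | h1
    · have h2 := ih (fun i hi => h i (by omega)) h1
      unfold dg at h2 ⊢
      rw [hs]
      obtain ⟨e, he⟩ : ∃ e, k = j + 1 + e := ⟨k - (j + 1), by omega⟩
      have h3 : d k * 16 ^ k = 16 ^ j * (16 * (d k * 16 ^ e)) := by
        rw [he, pow_add, pow_succ]
        ring
      rw [h3, Nat.add_mul_div_left _ _ (by positivity), Nat.add_mul_mod_self_left, h2]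
    · have h2 : j = k := by omega
      subst h2
      unfold dg
      rw [hs, Nat.add_mul_div_right _ _ (by positivity), Nat.div_eq_of_lt hlt, zero_add,
        Nat.mod_eq_of_lt (h j (by omega))]

/-- All codes of permutations of `{0, ..., N-1}` compatible with the constraints pass the check. -/
def allP (N : ℕ) (con : ℕ → Option ℕ) (chk : ℕ → Bool) : ℕ → ℕ → ℕ → ℕ → Bool
  | 0, _, code, _ => chk code
  | k + 1, pos, code, used =>
    match con pos with
    | some v => Nat.testBit used v ||
        allP N con chk k (pos + 1) (code + v * 16 ^ pos) (used ||| 2 ^ v)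
    | none => (List.range N).all fun v => Nat.testBit used v ||
        allP N con chk k (pos + 1) (code + v * 16 ^ pos) (used ||| 2 ^ v)

/-- The digits of a permutation. -/
def dOf {N : ℕ} (π : Perm (Fin N)) : ℕ → ℕ := fun i => if h : i < N then (π ⟨i, h⟩ : ℕ) else 0

theorem allP_spec {N : ℕ} (con : ℕ → Option ℕ) (chk : ℕ → Bool) (π : Perm (Fin N))
    (hcon : ∀ i : Fin N, ∀ v, con i = some v → (π i : ℕ) = v) :
    ∀ k pos code used, pos + k = N → code = codeF (dOf π) pos →
      (∀ v, Nat.testBit used v = true → ∃ i : Fin N, (i : ℕ) < pos ∧ (π i : ℕ) = v) →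
      allP N con chk k pos code used = true → chk (codeF (dOf π) N) = true := by
  intro k
  induction k with
  | zero =>
    intro pos code used h1 h2 _ h4
    have : pos = N := by omega
    subst this
    rw [← h2]
    exact h4
  | succ k ih =>
    intro pos code used h1 h2 h3 h4
    have hpos : pos < N := by omega
    have hd : dOf π pos = (π ⟨pos, hpos⟩ : ℕ) := by simp [dOf, hpos]
    have key : ∀ v, (π ⟨pos, hpos⟩ : ℕ) = v → (Nat.testBit used v ||
        allP N con chk k (pos + 1) (code + v * 16 ^ pos) (used ||| 2 ^ v)) = true →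
        chk (codeF (dOf π) N) = true := by
      intro v hv h5
      rw [Bool.or_eq_true] at h5
      rcases h5 with h5 | h5
      · exfalso
        obtain ⟨i, hi, hi2⟩ := h3 v h5
        have : i = ⟨pos, hpos⟩ := by
          apply π.injective
          apply Fin.ext
          rw [hi2, hv]
        rw [this] at hi
        simp at hi
      · apply ih (pos + 1) _ _ (by omega) _ _ h5
        · rw [h2]
          unfold codeF
          rw [Finset.sum_range_succ, hd, hv]
        · intro u hu
          rw [Nat.testBit_or, Bool.or_eq_true] at hu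
          rcases hu with hu | hu
          · obtain ⟨i, hi, hi2⟩ := h3 u hu
            exact ⟨i, by omega, hi2⟩
          · rw [Nat.testBit_two_pow] at hu
            have : v = u := by simpa using hu
            subst this
            exact ⟨⟨pos, hpos⟩, by simp, hv⟩
    unfold allP at h4
    cases hc : con pos with
    | some v =>
      rw [hc] at h4
      exact key v (hcon ⟨pos, hpos⟩ v hc) h4
    | none =>
      rw [hc] at h4
      simp only [List.all_eq_true, List.mem_range] at h4
      exact key _ rfl (h4 _ (π ⟨pos, hpos⟩).2)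

theorem codes_codeF {N : ℕ} (hN : N ≤ 16) (π : Perm (Fin N)) : Codes (codeF (dOf π) N) π := by
  intro i
  rw [dg_codeF (dOf π) N _ i i.2]
  · simp [dOf]
  · intro j hj
    simp only [dOf, hj, dif_pos]
    exact lt_of_lt_of_le (π ⟨j, hj⟩).2 hN

end codes

/-! ### Swaps -/

section swaps

variable {α : Type*}

/-- A fixed-point-free involution. -/
def IsDiag (X : Perm α) : Prop := (∀ a, X (X a) = a) ∧ ∀ a, X a ≠ a

/-- `Y` arises from `X` by a swap of two pairs. -/
def Swp (X Y : Perm α) : Prop :=
  ∃ a c, c ≠ a ∧ c ≠ X a ∧ Y a = c ∧ Y (X a) = X c ∧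
    ∀ b, b ≠ a → b ≠ X a → b ≠ c → b ≠ X c → Y b = X b

/-- Reachability in `k` swaps which do not change the number of orbits of `σ * X`. -/
inductive Rch (σ : Perm α) : ℕ → Perm α → Perm α → Prop
  | refl (X : Perm α) : Rch σ 0 X X
  | step {k : ℕ} {X Y Z : Perm α} : Rch σ k X Y → IsDiag Z → Swp Y Z →
      orb (σ * Z) = orb (σ * Y) → Rch σ (k + 1) X Z

theorem Rch.trans {σ : Perm α} {k l : ℕ} {X Y Z : Perm α} (h1 : Rch σ k X Y) (h2 : Rch σ l Y Z) :
    Rch σ (k + l) X Z := by
  induction h2 with
  | refl => exact h1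
  | step _ h3 h4 h5 ih => exact Rch.step (ih h1) h3 h4 h5

theorem Rch.orb_eq {σ : Perm α} {k : ℕ} {X Y : Perm α} (h : Rch σ k X Y) :
    orb (σ * Y) = orb (σ * X) := by
  induction h with
  | refl => rfl
  | step _ _ _ h5 ih => rw [h5, ih]

variable [DecidableEq α]

/-- Replace the pairs `{a, X a}, {b, X b}` by `{a, b}, {X a, X b}`. -/
def swapAt (X : Perm α) (a b : α) : Perm α := X * swap a (X b) * swap (X a) b

theorem swapAt_spec (X : Perm α) (hX : IsDiag X) (a b : α) (h1 : b ≠ a) (h2 : b ≠ X a) :
    swapAt X a b a = b ∧ swapAt X a b b = a ∧ swapAt X a b (X a) = X b ∧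
      swapAt X a b (X b) = X a ∧
      ∀ c, c ≠ a → c ≠ b → c ≠ X a → c ≠ X b → swapAt X a b c = X c := by
  have ha := hX.2 a
  have hb := hX.2 b
  have hab : X a ≠ X b := fun e => h1 (X.injective e).symm
  have hba : X b ≠ a := by
    intro e
    apply h2
    rw [← e, hX.1]
  refine ⟨?_, ?_, ?_, ?_, ?_⟩
  · simp only [swapAt, Perm.mul_apply]
    rw [swap_apply_of_ne_of_ne ha.symm h1.symm, swap_apply_left, hX.1]
  · simp only [swapAt, Perm.mul_apply]
    rw [swap_apply_right, swap_apply_of_ne_of_ne ha hab, hX.1]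
  · simp only [swapAt, Perm.mul_apply]
    rw [swap_apply_left, swap_apply_of_ne_of_ne h1 hb.symm]
  · simp only [swapAt, Perm.mul_apply]
    rw [swap_apply_of_ne_of_ne hab.symm hb, swap_apply_right]
  · intro c hc1 hc2 hc3 hc4
    simp only [swapAt, Perm.mul_apply]
    rw [swap_apply_of_ne_of_ne hc3 hc2, swap_apply_of_ne_of_ne hc1 hc4]

theorem swapAt_diag (X : Perm α) (hX : IsDiag X) (a b : α) (h1 : b ≠ a) (h2 : b ≠ X a) :
    IsDiag (swapAt X a b) ∧ Swp X (swapAt X a b) := by
  obtain ⟨e1, e2, e3, e4, e5⟩ := swapAt_spec X hX a b h1 h2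
  have ha := hX.2 a
  have hb := hX.2 b
  have hab : X a ≠ X b := fun e => h1 (X.injective e).symm
  have hba : X b ≠ a := by
    intro e
    apply h2
    rw [← e, hX.1]
  refine ⟨⟨?_, ?_⟩, ?_⟩
  · intro c
    by_cases hc1 : c = a
    · subst hc1; rw [e1, e2]
    by_cases hc2 : c = b
    · subst hc2; rw [e2, e1]
    by_cases hc3 : c = X a
    · subst hc3; rw [e3, e4]
    by_cases hc4 : c = X b
    · subst hc4; rw [e4, e3]
    rw [e5 c hc1 hc2 hc3 hc4, e5 (X c) _ _ _ _, hX.1]
    · intro e; apply hc3; rw [← e, hX.1]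
    · intro e; apply hc4; rw [← e, hX.1]
    · intro e; exact hc1 (X.injective e)
    · intro e; exact hc2 (X.injective e)
  · intro c
    by_cases hc1 : c = a
    · subst hc1; rw [e1]; exact h1
    by_cases hc2 : c = b
    · subst hc2; rw [e2]; exact h1.symm
    by_cases hc3 : c = X a
    · subst hc3; rw [e3]; exact hab.symm
    by_cases hc4 : c = X b
    · subst hc4; rw [e4]; exact hab
    rw [e5 c hc1 hc2 hc3 hc4]
    exact hX.2 c
  · exact ⟨a, b, h1, h2, e1, e3, fun c hc1 hc2 hc3 hc4 => e5 c hc1 hc3 hc2 hc4⟩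

/-! ### Certified local paths -/

/-- `c'` is the code of the matching with code `c` after the swap at `a, b`. -/
def stepOK (N c a b c' : ℕ) : Bool :=
  decide (a < N) && decide (b < N) && !(Nat.beq a b) && !(Nat.beq (dg c a) b) &&
    (List.range N).all fun i => Nat.beq (dg c' i)
      (if i = a then b else if i = b then a else if i = dg c a then dg c b
        else if i = dg c b then dg c a else dg c i)

/-- A legal sequence of swaps ending in a matching whose code satisfies `tgt`. -/
def goodPath (N : ℕ) (tgt : ℕ → Bool) : ℕ → List (ℕ × ℕ × ℕ) → Bool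
  | c, [] => tgt c
  | c, s :: l => stepOK N c s.1 s.2.1 s.2.2 && goodPath N tgt s.2.2 l

theorem stepOK_spec {N : ℕ} (c a b c' : ℕ) (m : Perm (Fin N)) (hm : IsDiag m) (hc : Codes c m)
    (h : stepOK N c a b c' = true) : ∃ (i j : Fin N), j ≠ i ∧ j ≠ m i ∧
      Codes c' (swapAt m i j) := by
  simp only [stepOK, Bool.and_eq_true, decide_eq_true_eq, Bool.not_eq_true', List.all_eq_true,
    List.mem_range] at h
  obtain ⟨⟨⟨⟨ha, hb⟩, hab⟩, hmab⟩, hall⟩ := h
  have hab' : a ≠ b := by
    rintro rfl
    simp at hab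
  have hji : (⟨b, hb⟩ : Fin N) ≠ ⟨a, ha⟩ := by
    intro e
    exact hab' (Fin.mk.inj_iff.1 e).symm
  have hjm : (⟨b, hb⟩ : Fin N) ≠ m ⟨a, ha⟩ := by
    intro e
    have h1 := hc ⟨a, ha⟩
    rw [← e] at h1
    simp only at h1
    rw [h1] at hmab
    simp at hmab
  refine ⟨⟨a, ha⟩, ⟨b, hb⟩, hji, hjm, ?_⟩
  obtain ⟨e1, e2, e3, e4, e5⟩ := swapAt_spec m hm ⟨a, ha⟩ ⟨b, hb⟩ hji hjm
  intro i
  have h1 := Nat.eq_of_beq_eq_true (hall i i.2)
  rw [h1]
  have hca := hc ⟨a, ha⟩
  have hcb := hc ⟨b, hb⟩
  simp only at hca hcb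
  by_cases hi1 : i = ⟨a, ha⟩
  · subst hi1; rw [e1]; simp
  have hi1' : (i : ℕ) ≠ a := fun e => hi1 (Fin.ext e)
  rw [if_neg hi1']
  by_cases hi2 : i = ⟨b, hb⟩
  · subst hi2; rw [e2]; simp
  have hi2' : (i : ℕ) ≠ b := fun e => hi2 (Fin.ext e)
  rw [if_neg hi2']
  by_cases hi3 : i = m ⟨a, ha⟩
  · rw [if_pos (by rw [hca, hi3]), hi3, e3, hcb]
  have hi3' : (i : ℕ) ≠ dg c a := by
    rw [hca]
    exact fun e => hi3 (Fin.ext e)
  rw [if_neg hi3']
  by_cases hi4 : i = m ⟨b, hb⟩
  · rw [if_pos (by rw [hcb, hi4]), hi4, e4, hca]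
  have hi4' : (i : ℕ) ≠ dg c b := by
    rw [hcb]
    exact fun e => hi4 (Fin.ext e)
  rw [if_neg hi4', e5 i hi1 hi2 hi3 hi4, hc i]

theorem swapAt_w {N : ℕ} (w : Fin N ↪ α) (X : Perm α) (m : Perm (Fin N)) (hX : IsDiag X)
    (hm : IsDiag m) (hw : ∀ i, X (w i) = w (m i)) (i j : Fin N) (h1 : j ≠ i) (h2 : j ≠ m i) :
    (∀ k, swapAt X (w i) (w j) (w k) = w (swapAt m i j k)) ∧
    (∀ a, a ∉ Set.range w → swapAt X (w i) (w j) a = X a) := by
  have h1' : w j ≠ w i := fun e => h1 (w.injective e)
  have h2' : w j ≠ X (w i) := by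
    rw [hw]
    exact fun e => h2 (w.injective e)
  obtain ⟨e1, e2, e3, e4, e5⟩ := swapAt_spec m hm i j h1 h2
  obtain ⟨f1, f2, f3, f4, f5⟩ := swapAt_spec X hX (w i) (w j) h1' h2'
  constructor
  · intro k
    by_cases hk1 : k = i
    · subst hk1; rw [e1, f1]
    by_cases hk2 : k = j
    · subst hk2; rw [e2, f2]
    by_cases hk3 : k = m i
    · subst hk3; rw [e3, ← hw, ← hw, f3]
    by_cases hk4 : k = m j
    · subst hk4; rw [e4, ← hw, ← hw, f4]
    rw [e5 k hk1 hk2 hk3 hk4, f5 (w k), hw]
    · exact fun e => hk1 (w.injective e)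
    · exact fun e => hk2 (w.injective e)
    · rw [hw]; exact fun e => hk3 (w.injective e)
    · rw [hw]; exact fun e => hk4 (w.injective e)
  · intro a ha
    apply f5
    · rintro rfl; exact ha ⟨_, rfl⟩
    · rintro rfl; exact ha ⟨_, rfl⟩
    · rw [hw]; rintro rfl; exact ha ⟨_, rfl⟩
    · rw [hw]; rintro rfl; exact ha ⟨_, rfl⟩

theorem run_path {N : ℕ} (σ : Perm α) (w : Fin N ↪ α) (X0 : Perm α) (π : Perm (Fin N)) (K : ℤ)
    (hK : ∀ (Y : Perm α) (m : Perm (Fin N)), (∀ i, Y (w i) = w (m i)) →
      (∀ a, a ∉ Set.range w → Y a = X0 a) → (orb (σ * Y) : ℤ) = orb (π * m) + K)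
    (tgt : ℕ → Bool) (r : ℕ) :
    ∀ (l : List (ℕ × ℕ × ℕ)) (c : ℕ) (X : Perm α) (m : Perm (Fin N)), IsDiag X → IsDiag m →
      Codes c m → (∀ i, X (w i) = w (m i)) → (∀ a, a ∉ Set.range w → X a = X0 a) →
      orb (π * m) = r → goodPath N tgt c l = true →
      (∀ s ∈ l, ∀ m' : Perm (Fin N), Codes s.2.2 m' → orb (π * m') = r) →
      ∃ (X' : Perm α) (m' : Perm (Fin N)) (c' : ℕ), Rch σ l.length X X' ∧ IsDiag X' ∧
        Codes c' m' ∧ tgt c' = true ∧ (∀ i, X' (w i) = w (m' i)) ∧
        (∀ a, a ∉ Set.range w → X' a = X0 a) := by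
  intro l
  induction l with
  | nil =>
    intro c X m hX hm hc hw hoff hr hg _
    exact ⟨X, m, c, Rch.refl X, hX, hc, hg, hw, hoff⟩
  | cons s l ih =>
    intro c X m hX hm hc hw hoff hr hg hs
    simp only [goodPath, Bool.and_eq_true] at hg
    obtain ⟨i, j, h1, h2, h3⟩ := stepOK_spec c s.1 s.2.1 s.2.2 m hm hc hg.1
    have h1' : w j ≠ w i := fun e => h1 (w.injective e)
    have h2' : w j ≠ X (w i) := by
      rw [hw]
      exact fun e => h2 (w.injective e)
    obtain ⟨h4, h5⟩ := swapAt_w w X m hX hm hw i j h1 h2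
    obtain ⟨h6, h7⟩ := swapAt_diag X hX (w i) (w j) h1' h2'
    obtain ⟨h8, _⟩ := swapAt_diag m hm i j h1 h2
    have h9 : ∀ a, a ∉ Set.range w → swapAt X (w i) (w j) a = X0 a := by
      intro a ha
      rw [h5 a ha, hoff a ha]
    have h10 := hs s List.mem_cons_self _ h3
    obtain ⟨X', m', c', g1, g2, g3, g4, g5, g6⟩ := ih s.2.2 (swapAt X (w i) (w j))
      (swapAt m i j) h6 h8 h3 h4 h9 h10 hg.2 (fun s' hs' => hs s' (List.mem_cons_of_mem _ hs'))
    refine ⟨X', m', c', ?_, g2, g3, g4, g5, g6⟩
    have h11 : Rch σ 1 X (swapAt X (w i) (w j)) := by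
      have h12 := hK _ _ h4 h9
      have h13 := hK _ _ hw hoff
      have h14 : (orb (σ * swapAt X (w i) (w j)) : ℤ) = orb (σ * X) := by
        rw [h12, h13, h10, hr]
      exact Rch.step (Rch.refl X) h6 h7 (by exact_mod_cast h14)
    have h15 := h11.trans g1
    rw [add_comm] at h15
    exact h15

/-- The path is valid for the boundary permutation with code `cp`. -/
def validFor (N cp c : ℕ) (l : List (ℕ × ℕ × ℕ)) : Bool :=
  match cnt N cp c with
  | none => false
  | some r => l.all fun s => match cnt N cp s.2.2 with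
    | none => false
    | some r' => Nat.beq r' r

/-- The first step map: `σ` on the window, `σ ∘ X` outside. -/
noncomputable def stepf {β : Type*} (σ X : Perm α) (w : β ↪ α) : α → α :=
  open Classical in fun a => if a ∈ Set.range w then σ a else σ (X a)

omit [DecidableEq α] in
theorem local_pi [Finite α] {β : Type*} [Finite β] (σ X : Perm α) (hX : IsDiag X) (w : β ↪ α)
    (m0 : Perm β) (hw : ∀ i, X (w i) = w (m0 i)) :
    ∃ π : Perm β, ∃ K : ℤ,
      (∀ i k, Reach (stepf σ X w) (Set.range w) (w i) (w k) ↔ π i = k) ∧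
      (∀ (Y : Perm α) (m : Perm β), (∀ i, Y (w i) = w (m i)) →
        (∀ a, a ∉ Set.range w → Y a = X a) → (orb (σ * Y) : ℤ) = orb (π * m) + K) ∧
      ∀ i, cls (σ * X) (w (π (m0 i))) = cls (σ * X) (w i) := by
  classical
  have hpres : ∀ a, a ∉ Set.range w → X a ∉ Set.range w := by
    rintro a ha ⟨i, hi⟩
    apply ha
    refine ⟨m0 i, ?_⟩
    rw [← hw, hi, hX.1]
  have hinv : Function.Involutive (fun a => if a ∈ Set.range w then a else X a) := by
    intro a
    by_cases ha : a ∈ Set.range w
    · simp only [ha, if_true]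
    · simp only [ha, if_false, hpres a ha, hX.1]
  let Xo : Perm α := hinv.toPerm
  have hXo1 : ∀ i, Xo (w i) = w i := by
    intro i
    change (if w i ∈ Set.range w then w i else X (w i)) = w i
    simp
  have hXo2 : ∀ a, a ∉ Set.range w → Xo a = X a := by
    intro a ha
    change (if a ∈ Set.range w then a else X a) = X a
    simp only [ha, if_false]
  have hXoo : ∀ a, Xo (Xo a) = a := hinv
  obtain ⟨π, K, h1, h2⟩ := transfer w (σ * Xo)
  have hf : ((σ * Xo : Perm α) : α → α) = stepf σ X w := by
    funext a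
    by_cases ha : a ∈ Set.range w
    · obtain ⟨i, rfl⟩ := ha
      simp [stepf, hXo1]
    · simp only [Perm.mul_apply, hXo2 a ha, stepf, ha, if_false]
  refine ⟨π, K, ?_, ?_, ?_⟩
  · intro i k
    rw [← h1, hf]
  · intro Y m hY1 hY2
    have hM1 : ∀ i, (Xo * Y) (w i) = w (m i) := by
      intro i
      simp [hY1, hXo1]
    have hM2 : ∀ a, a ∉ Set.range w → (Xo * Y) a = a := by
      intro a ha
      rw [Perm.mul_apply, hY2 a ha, hXo2 _ (hpres a ha), hX.1]
    have h3 := (h2 (Xo * Y) m hM1 hM2).1
    have h4 : σ * Xo * (Xo * Y) = σ * Y := by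
      ext a
      simp [hXoo]
    rw [h4] at h3
    exact h3
  · intro i
    have hM1 : ∀ i, (Xo * X) (w i) = w (m0 i) := by
      intro i
      simp [hw, hXo1]
    have hM2 : ∀ a, a ∉ Set.range w → (Xo * X) a = a := by
      intro a ha
      rw [Perm.mul_apply, hXo2 _ (hpres a ha), hX.1]
    have h3 := (h2 (Xo * X) m0 hM1 hM2).2 i
    have h4 : σ * Xo * (Xo * X) = σ * X := by
      ext a
      simp [hXoo]
    rw [h4] at h3
    exact h3

/-- The main local tool. -/
theorem engine [Finite α] {N : ℕ} (hN : N ≤ 16) (σ X : Perm α) (hX : IsDiag X) (w : Fin N ↪ α)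
    (m0 : Perm (Fin N)) (hm0 : IsDiag m0) (c0 : ℕ) (hc0 : Codes c0 m0)
    (hw : ∀ i, X (w i) = w (m0 i)) (con : ℕ → Option ℕ)
    (hcon : ∀ π : Perm (Fin N),
      (∀ i k, Reach (stepf σ X w) (Set.range w) (w i) (w k) ↔ π i = k) →
      ∀ (i : Fin N) (v : ℕ), con i = some v → (π i : ℕ) = v)
    (paths : List (List (ℕ × ℕ × ℕ))) (tgt extra : ℕ → Bool) (B : ℕ)
    (hgood : (paths.all fun l => goodPath N tgt c0 l && decide (l.length ≤ B)) = true)
    (hcheck : allP N con (fun cp => extra cp || paths.any fun l => validFor N cp c0 l)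
      N 0 0 0 = true) :
    (∃ π : Perm (Fin N), ∃ cp, Codes cp π ∧ extra cp = true ∧
      (∀ i k, Reach (stepf σ X w) (Set.range w) (w i) (w k) ↔ π i = k) ∧
      (∀ i, cls (σ * X) (w (π (m0 i))) = cls (σ * X) (w i))) ∨
    ∃ (X' : Perm α) (m' : Perm (Fin N)) (c' k : ℕ), k ≤ B ∧ Rch σ k X X' ∧ IsDiag X' ∧
        Codes c' m' ∧ tgt c' = true ∧ (∀ i, X' (w i) = w (m' i)) ∧
        (∀ a, a ∉ Set.range w → X' a = X a) := by
  obtain ⟨π, K, h1, h2, h3⟩ := local_pi σ X hX w m0 hw
  have h4 := allP_spec con _ π (hcon π h1) N 0 0 0 (by omega) (by simp [codeF]) (by simp) hcheck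
  rw [Bool.or_eq_true] at h4
  have hcp := codes_codeF hN π
  rcases h4 with h4 | h4
  · left
    exact ⟨π, _, hcp, h4, h1, h3⟩
  · right
    rw [List.any_eq_true] at h4
    obtain ⟨l, hl, hv⟩ := h4
    rw [List.all_eq_true] at hgood
    have hg := hgood l hl
    rw [Bool.and_eq_true, decide_eq_true_eq] at hg
    unfold validFor at hv
    cases hcnt : cnt N (codeF (dOf π) N) c0 with
    | none => simp [hcnt] at hv
    | some r =>
      rw [hcnt] at hv
      simp only [List.all_eq_true] at hv
      have hr := cnt_spec _ _ π m0 hcp hc0 r hcnt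
      obtain ⟨X', m', c', g1, g2, g3, g4, g5, g6⟩ := run_path σ w X π K h2 tgt r l c0 X m0 hX hm0
        hc0 hw (fun _ _ => rfl) hr hg.1 (by
          intro s hs m' hm'
          have h5 := hv s hs
          cases hcnt' : cnt N (codeF (dOf π) N) s.2.2 with
          | none => simp [hcnt'] at h5
          | some r' =>
            rw [hcnt'] at h5
            have h6 := Nat.eq_of_beq_eq_true h5
            subst h6
            exact cnt_spec _ _ π m' hcp hm' r' hcnt')
      exact ⟨X', m', c', l.length, hg.2, g1, g2, g3, g4, g5, g6⟩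

end swaps

/-! ### The certificates -/

/-- The code of the matching when all partners are outside the window. -/
def code12 : ℕ := 111339169744641

/-- The paths when all partners are outside the window. -/
def paths12 : List (List (ℕ × ℕ × ℕ)) :=
    [[(2, 3, 111357960200961)],
      [(2, 9, 111202267531521), (2, 3, 111640354169601)],
      [(0, 8, 111326284814136), (0, 2, 111357960196146), (4, 5, 116168317014066)],
      [(0, 9, 111064291313481), (3, 5, 114392883615561), (0, 2, 114875798999106), (1, 3, 114875800293426)],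
      [(0, 8, 111326284814136), (0, 2, 111357960196146), (5, 6, 188323669282866), (4, 5, 188461172985906)],
      [(0, 11, 5785885706091), (0, 2, 128933603934306), (4, 5, 133743960752226), (1, 3, 133756963065906)],
      [(2, 4, 111547206763521), (2, 3, 111551502099201)],
      [(0, 8, 111326284814136), (0, 2, 111357960196146), (5, 11, 94865270050866), (4, 5, 165715042963506)]]

/-- For every other way in which a window of seven sides starting with a leaf can be matched: the
number of sides involved, the code of the matching and a list of local paths. -/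
def table : List (List ℕ × ℕ × ℕ × List (List (ℕ × ℕ × ℕ))) := [
  ([1, 0, 7, 7, 7, 6, 5], 10, 288390481665,
    [[(2, 3, 307180937985)],
      [(2, 9, 151488268545), (2, 3, 589574906625)],
      [(3, 5, 301322557185), (2, 3, 302132044545)],
      [(4, 6, 357096130305), (2, 3, 375886586625)],
      [(3, 9, 223965910785), (2, 3, 500722836225)]]),
  ([1, 0, 7, 7, 5, 4, 7], 10, 425894184705,
    [[(3, 4, 434488166145), (2, 3, 435025289985)]]),
  ([1, 0, 7, 7, 6, 7, 4], 10, 357096130305,
    [[(3, 5, 589018060545), (2, 4, 590141871105), (0, 5, 590138709045), (0, 2, 590143098930)],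
      [(2, 5, 496406791425), (0, 2, 496405741650), (1, 6, 496358490210), (1, 3, 509360803890)],
      [(3, 4, 370047928065), (2, 3, 370585051905)],
      [(0, 8, 344211199800), (0, 2, 375886581810), (4, 5, 444684636210)]]),
  ([1, 0, 7, 4, 3, 7, 7], 10, 434488166145,
    [[(2, 3, 435025289985)]]),
  ([1, 0, 7, 4, 3, 6, 5], 8, 627263233,
    [[(2, 3, 1164387073)]]),
  ([1, 0, 7, 5, 7, 3, 7], 10, 430188287745,
    [[(2, 4, 444683408385), (0, 2, 444683341890), (1, 3, 444684636210)],
      [(2, 3, 430997775105)],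
      [(0, 9, 17737209705), (1, 4, 26444126025), (0, 2, 509359509570), (1, 3, 509360803890)],
      [(0, 2, 429919850610), (1, 9, 87631089810), (3, 8, 83336986770), (1, 3, 590143098930)]]),
  ([1, 0, 7, 5, 6, 3, 4], 8, 607540993,
    [[(2, 4, 1731351553), (0, 5, 1728189493), (0, 2, 1732579378)]]),
  ([1, 0, 7, 6, 7, 7, 3], 10, 361374443265,
    [[(2, 3, 362515276545)],
      [(0, 6, 361324091190), (0, 2, 362515271730), (4, 5, 590143098930)],
      [(2, 8, 353321314305), (2, 3, 370585051905)],
      [(2, 4, 375869563905), (2, 3, 375886586625)]]),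
  ([1, 0, 7, 6, 5, 4, 3], 8, 591750913,
    [[(2, 3, 1732584193)]]),
  ([1, 0, 3, 2, 7, 7, 7], 10, 435025289985,
    [[]]),
  ([1, 0, 3, 2, 7, 6, 5], 8, 1164387073,
    [[]]),
  ([1, 0, 3, 2, 5, 4, 7], 8, 1732584193,
    [[]]),
  ([1, 0, 3, 2, 6, 7, 4], 8, 1417028353,
    [[]]),
  ([1, 0, 4, 7, 2, 7, 7], 10, 434756547585,
    [[(3, 5, 444683408385), (0, 2, 444683341890), (1, 3, 444684636210)],
      [(2, 3, 435025289985)],
      [(0, 2, 434756481090), (5, 6, 589306097730), (1, 6, 589237153890), (1, 3, 590143098930)],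
      [(3, 6, 504985969665), (3, 5, 509359576065), (0, 2, 509359509570), (1, 3, 509360803890)]]),
  ([1, 0, 4, 7, 2, 6, 5], 8, 895644673,
    [[(2, 3, 1164387073)],
      [(3, 6, 1400005633), (2, 3, 1417028353)]]),
  ([1, 0, 4, 5, 2, 3, 7], 8, 1731351553,
    [[(0, 2, 1731285058), (1, 3, 1732579378)]]),
  ([1, 0, 4, 6, 2, 7, 3], 8, 1400005633,
    [[(3, 5, 1731351553), (0, 5, 1728189493), (0, 2, 1732579378)]]),
  ([1, 0, 5, 7, 7, 2, 7], 10, 430455682305,
    [[(2, 3, 430997775105)],
      [(0, 2, 430454632530), (1, 3, 430997770290), (4, 5, 444684636210)],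
      [(3, 8, 426429089025), (2, 3, 435025289985)]]),
  ([1, 0, 5, 7, 6, 2, 4], 8, 874935553,
    [[(0, 7, 69604663), (2, 6, 38082103), (0, 2, 1732579378)]]),
  ([1, 0, 5, 4, 3, 2, 7], 8, 1730364673,
    [[(2, 3, 1732584193)]]),
  ([1, 0, 5, 6, 7, 2, 3], 8, 1126655233,
    [[(2, 4, 1400005633), (2, 3, 1417028353)],
      [(0, 4, 320890228), (1, 3, 1730155828), (0, 2, 1732579378)]]),
  ([1, 0, 6, 7, 7, 7, 2], 10, 361626105345,
    [[(2, 3, 362515276545)],
      [(0, 8, 344445777480), (3, 5, 483489044040), (1, 3, 483490338360), (0, 2, 509360803890)],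
      [(0, 9, 18020333145), (3, 4, 32247072345), (1, 3, 32250336825), (0, 2, 444684636210)],
      [(0, 7, 360820774455), (4, 5, 588448601655), (0, 2, 590143098930)]]),
  ([1, 0, 6, 7, 5, 4, 2], 8, 843412993,
    [[(3, 4, 1383286273), (2, 3, 1417028353)]]),
  ([1, 0, 6, 4, 3, 7, 2], 8, 1383286273,
    [[(2, 3, 1417028353)]]),
  ([1, 0, 6, 5, 7, 3, 2], 8, 1110922753,
    [[(3, 4, 1383286273), (2, 3, 1417028353)]])]

/-- The paths for the exceptional case. -/
def paths14 : List (List (ℕ × ℕ × ℕ)) :=
    [[(2, 3, 57813728185885441)],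
      [(2, 9, 57813572493216001), (2, 3, 57814010579854081)],
      [(0, 8, 57813696510498616), (0, 2, 57813728185880626), (4, 5, 57818538542698546)],
      [(0, 9, 57813434516997961), (3, 5, 57816763109300041), (0, 2, 57817246024683586), (1, 3, 57817246025977906)],
      [(0, 8, 57813696510498616), (0, 2, 57813728185880626), (5, 6, 57890693894967346), (4, 5, 57890831398670386)],
      [(0, 11, 57708156111390571), (0, 2, 57831303829618786), (4, 5, 57836114186436706), (1, 3, 57836127188750386)],
      [(0, 8, 57813696510498616), (0, 2, 57813728185880626), (5, 11, 57797235495735346), (4, 5, 57868085268647986)],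
      [(2, 11, 57743341657885441), (0, 8, 57743328772954936), (4, 13, 20589181603224376), (0, 2, 20694781964128306), (4, 5, 47725175814557746)],
      [(6, 13, 30334714827605761), (0, 8, 30334701942675256), (4, 5, 30339512299493176), (0, 2, 30339543974875186)],
      [(4, 12, 41770254198408961), (0, 2, 41770253929971826), (4, 5, 43466800364879986), (1, 3, 43466819423768626)]]

/-- The code of the matching in the exceptional case. -/
def code14 : ℕ := 57813709395429121

/-- The exceptional boundary permutation. -/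
def bad12 : ℕ := 205163883479841

/-- The target: either a leaf followed by a leaf, or a handle followed by a leaf. -/
def tgtMain (c : ℕ) : Bool :=
  (Nat.beq (dg c 0) 1 && Nat.beq (dg c 2) 3) ||
    (Nat.beq (dg c 0) 2 && Nat.beq (dg c 1) 3 && Nat.beq (dg c 4) 5)

/-- Consecutive sides of the window. -/
def conW (k : ℕ) (i : ℕ) : Option ℕ := if i < k then some (i + 1) else none

/-- The constraints in the exceptional case. -/
def con14 (i : ℕ) : Option ℕ :=
  if i < 6 then some (i + 1) else if i = 7 then some 12 else if i = 13 then some 7 else none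

/-- The check of one configuration. -/
def checkCfg (N c0 : ℕ) (con : ℕ → Option ℕ) (paths : List (List (ℕ × ℕ × ℕ)))
    (tgt extra : ℕ → Bool) (B : ℕ) : Bool :=
  (paths.all fun l => goodPath N tgt c0 l && decide (l.length ≤ B)) &&
    allP N con (fun cp => extra cp || paths.any fun l => validFor N cp c0 l) N 0 0 0


/-- `c` codes a fixed-point-free involution of `{0, ..., N-1}`. -/
def isInv (N c : ℕ) : Bool :=
  (List.range N).all fun i => Nat.blt (dg c i) N && Nat.beq (dg c (dg c i)) i &&
    !(Nat.beq (dg c i) i)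

/-- The list `q` describes the window part of the matching with code `c0`. -/
def structOK (q : List ℕ) (N c0 : ℕ) : Bool :=
  Nat.ble 7 N && Nat.ble N 16 && isInv N c0 &&
  ((List.range 7).all fun t => bif Nat.blt (q.getD t 0) 7 then Nat.beq (dg c0 t) (q.getD t 0)
    else Nat.ble 7 (dg c0 t)) &&
  ((List.range N).all fun t => Nat.blt t 7 ||
    (Nat.blt (dg c0 t) 7 && Nat.beq (q.getD (dg c0 t) 0) 7))

/-- Consistency of the window data. -/
def okq (q : List ℕ) : Bool :=
  (List.range 7).all fun i => !(Nat.beq (q.getD i 0) i) &&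
    (Nat.ble 7 (q.getD i 0) || Nat.beq (q.getD (q.getD i 0) 0) i)

theorem table_check : (table.all fun e => structOK e.1 e.2.1 e.2.2.1 &&
    checkCfg e.2.1 e.2.2.1 (conW 6) e.2.2.2 tgtMain (fun _ => false) 5) = true := by
  decide +kernel

theorem check12 : (structOK [1, 0, 7, 7, 7, 7, 7] 12 code12 &&
    checkCfg 12 code12 (conW 6) paths12 tgtMain (fun cp => Nat.beq cp bad12) 5) = true := by
  decide +kernel

theorem check14 : (isInv 14 code14 &&
    checkCfg 14 code14 con14 paths14 tgtMain (fun _ => false) 5) = true := by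
  decide +kernel

theorem table_complete : ((List.range 8).all fun a => Nat.ble a 2 || (List.range 8).all fun b =>
    Nat.ble b 1 || Nat.beq b 3 || (List.range 8).all fun c => Nat.ble c 1 || Nat.beq c 4 ||
    (List.range 8).all fun d => Nat.ble d 1 || Nat.beq d 5 || (List.range 8).all fun e =>
    !(okq [1, 0, a, b, c, d, e]) || [1, 0, a, b, c, d, e] == [1, 0, 7, 7, 7, 7, 7] ||
    table.any fun t => t.1 == [1, 0, a, b, c, d, e]) = true := by
  decide +kernel

/-! ### The window step -/

section window

/-- The permutation with a given code. -/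
theorem exists_codePerm (N c : ℕ) (h : isInv N c = true) :
    ∃ m : Perm (Fin N), IsDiag m ∧ Codes c m := by
  simp only [isInv, List.all_eq_true, List.mem_range, Bool.and_eq_true, Bool.not_eq_true'] at h
  have h1 : ∀ i : Fin N, dg c i < N := fun i => by
    have := (h i i.2).1.1
    rw [Nat.blt_eq] at this
    exact this
  have h2 : ∀ i : Fin N, dg c (dg c i) = i := fun i => Nat.eq_of_beq_eq_true (h i i.2).1.2
  have h3 : ∀ i : Fin N, dg c i ≠ i := fun i e => by
    have := (h i i.2).2
    rw [e] at this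
    simp at this
  let f : Fin N → Fin N := fun i => ⟨dg c i, h1 i⟩
  have hf : Function.Involutive f := fun i => Fin.ext (h2 i)
  refine ⟨hf.toPerm, ⟨fun i => hf i, fun i e => h3 i (congrArg Fin.val e)⟩, fun i => rfl⟩

variable {α : Type*}

theorem stepf_injective {β : Type*} (σ X : Perm α) (w : β ↪ α)
    (hpres : ∀ a, a ∉ Set.range w → X a ∉ Set.range w) :
    Function.Injective (stepf σ X w) := by
  classical
  intro a b hab
  by_cases ha : a ∈ Set.range w <;> by_cases hb : b ∈ Set.range w
  · simpa [stepf, ha, hb] using hab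
  · exfalso
    simp only [stepf, ha, hb, if_true, if_false] at hab
    have := σ.injective hab
    exact hpres b hb (this ▸ ha)
  · exfalso
    simp only [stepf, ha, hb, if_true, if_false] at hab
    have := σ.injective hab
    exact hpres a ha (this ▸ hb)
  · simp only [stepf, ha, hb, if_false] at hab
    exact X.injective (σ.injective hab)

/-- The embedding belonging to a configuration. -/
theorem mk_w (X : Perm α) (hX : IsDiag X) (u : ℕ → α) (q : List ℕ) (N c0 : ℕ)
    (hu : ∀ i < 7, ∀ k < 7, u i = u k → i = k)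
    (hq : ∀ i < 7, (q.getD i 0 < 7 → X (u i) = u (q.getD i 0)) ∧
      (7 ≤ q.getD i 0 → ∀ k < 7, X (u i) ≠ u k))
    (hs : structOK q N c0 = true) :
    ∃ w : Fin N ↪ α, (∀ t : Fin N, (t : ℕ) < 7 → w t = u t) ∧
      (∀ t : Fin N, 7 ≤ (t : ℕ) → w t = X (u (dg c0 t)) ∧ dg c0 t < 7) ∧
      ∃ m0 : Perm (Fin N), IsDiag m0 ∧ Codes c0 m0 ∧ ∀ i, X (w i) = w (m0 i) := by
  simp only [structOK, Bool.and_eq_true, List.all_eq_true, List.mem_range, Nat.ble_eq] at hs
  obtain ⟨⟨⟨⟨h7, h16⟩, hinv⟩, hA⟩, hB⟩ := hs
  obtain ⟨m0, hm0, hc0⟩ := exists_codePerm N c0 hinv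
  have hA1 : ∀ t < 7, q.getD t 0 < 7 → dg c0 t = q.getD t 0 := by
    intro t ht h
    have := hA t ht
    have h' : Nat.blt (q.getD t 0) 7 = true := by rw [Nat.blt_eq]; exact h
    rw [h'] at this
    exact Nat.eq_of_beq_eq_true this
  have hA2 : ∀ t < 7, 7 ≤ q.getD t 0 → 7 ≤ dg c0 t := by
    intro t ht h
    have := hA t ht
    have h' : Nat.blt (q.getD t 0) 7 = false := by
      rw [Bool.eq_false_iff, Ne, Nat.blt_eq]
      omega
    rw [h'] at this
    simpa using this
  have hB1 : ∀ t < N, 7 ≤ t → dg c0 t < 7 ∧ q.getD (dg c0 t) 0 = 7 := by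
    intro t ht h
    have := hB t ht
    rw [Bool.or_eq_true, Nat.blt_eq, Bool.and_eq_true, Nat.blt_eq] at this
    rcases this with h1 | h1
    · omega
    · exact ⟨h1.1, Nat.eq_of_beq_eq_true h1.2⟩
  let w0 : Fin N → α := fun t => if (t : ℕ) < 7 then u t else X (u (dg c0 t))
  have hw1 : ∀ t : Fin N, (t : ℕ) < 7 → w0 t = u t := fun t ht => by simp [w0, ht]
  have hw2 : ∀ t : Fin N, 7 ≤ (t : ℕ) → w0 t = X (u (dg c0 t)) := fun t ht => by
    simp [w0, Nat.not_lt.2 ht]
  have hinj : Function.Injective w0 := by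
    intro s t hst
    rcases Nat.lt_or_ge (s : ℕ) 7 with hs | hs <;> rcases Nat.lt_or_ge (t : ℕ) 7 with ht | ht
    · rw [hw1 s hs, hw1 t ht] at hst
      exact Fin.ext (hu _ hs _ ht hst)
    · exfalso
      rw [hw1 s hs, hw2 t ht] at hst
      obtain ⟨h1, h2⟩ := hB1 t t.2 ht
      exact (hq _ h1).2 (by omega) s hs hst.symm
    · exfalso
      rw [hw2 s hs, hw1 t ht] at hst
      obtain ⟨h1, h2⟩ := hB1 s s.2 hs
      exact (hq _ h1).2 (by omega) t ht hst
    · rw [hw2 s hs, hw2 t ht] at hst
      obtain ⟨h1, h2⟩ := hB1 s s.2 hs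
      obtain ⟨h3, h4⟩ := hB1 t t.2 ht
      have h5 := hu _ h1 _ h3 (X.injective hst)
      have h6 : (m0 s : ℕ) = m0 t := by rw [← hc0 s, ← hc0 t, h5]
      exact m0.injective (Fin.ext h6)
  refine ⟨⟨w0, hinj⟩, hw1, fun t ht => ⟨hw2 t ht, (hB1 t t.2 ht).1⟩, m0, hm0, hc0, ?_⟩
  intro t
  change X (w0 t) = w0 (m0 t)
  have hct := hc0 t
  rcases Nat.lt_or_ge (t : ℕ) 7 with ht | ht
  · rw [hw1 t ht]
    rcases Nat.lt_or_ge (q.getD t 0) 7 with h1 | h1
    · have h2 := hA1 t ht h1
      rw [hct] at h2
      rw [hw1 (m0 t) (by omega), h2]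
      exact (hq _ ht).1 h1
    · have h2 := hA2 t ht h1
      rw [hct] at h2
      rw [hw2 (m0 t) h2]
      have h3 := hc0 (m0 t)
      rw [hm0.1] at h3
      rw [h3]
  · rw [hw2 t ht, hX.1]
    have h1 := (hB1 t t.2 ht).1
    rw [hct] at h1 ⊢
    rw [hw1 (m0 t) h1]

/-- Reading off the result. -/
theorem tgtMain_spec {N : ℕ} (hN : 7 ≤ N) (w : Fin N ↪ α) (u : ℕ → α)
    (hw1 : ∀ t : Fin N, (t : ℕ) < 7 → w t = u t) (X' : Perm α) (m' : Perm (Fin N)) (c' : ℕ)
    (hc : Codes c' m') (ht : tgtMain c' = true) (hX' : ∀ i, X' (w i) = w (m' i)) :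
    (X' (u 0) = u 1 ∧ X' (u 2) = u 3) ∨
      (X' (u 0) = u 2 ∧ X' (u 1) = u 3 ∧ X' (u 4) = u 5) := by
  have key : ∀ a b : ℕ, a < 7 → b < 7 → Nat.beq (dg c' a) b = true → X' (u a) = u b := by
    intro a b ha hb h
    have h1 := Nat.eq_of_beq_eq_true h
    have h2 := hc ⟨a, by omega⟩
    simp only at h2
    have h3 := hX' ⟨a, by omega⟩
    rw [hw1 ⟨a, by omega⟩ ha] at h3
    rw [h3, hw1 _ (by rw [← h2, h1]; exact hb), ← h2, h1]
  simp only [tgtMain, Bool.or_eq_true, Bool.and_eq_true] at ht
  rcases ht with ⟨h1, h2⟩ | ⟨⟨h1, h2⟩, h3⟩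
  · left
    exact ⟨key 0 1 (by norm_num) (by norm_num) h1, key 2 3 (by norm_num) (by norm_num) h2⟩
  · right
    exact ⟨key 0 2 (by norm_num) (by norm_num) h1, key 1 3 (by norm_num) (by norm_num) h2,
      key 4 5 (by norm_num) (by norm_num) h3⟩

/-- The window data. -/
theorem window_data (X : Perm α) (hX : IsDiag X) (u : ℕ → α)
    (hu : ∀ i < 7, ∀ k < 7, u i = u k → i = k) (hleaf : X (u 0) = u 1) :
    ∃ q : List ℕ, (∀ i < 7, (q.getD i 0 < 7 → X (u i) = u (q.getD i 0)) ∧
      (7 ≤ q.getD i 0 → ∀ k < 7, X (u i) ≠ u k)) ∧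
      (q = [1, 0, 7, 7, 7, 7, 7] ∨ ∃ t ∈ table, t.1 = q) := by
  classical
  let p : ℕ → ℕ := fun i => if h : ∃ k < 7, X (u i) = u k then h.choose else 7
  have hp1 : ∀ i k, k < 7 → X (u i) = u k → p i = k := by
    intro i k hk h
    have hex : ∃ k < 7, X (u i) = u k := ⟨k, hk, h⟩
    have h1 : p i = hex.choose := by simp only [p, dif_pos hex]
    rw [h1]
    exact hu _ hex.choose_spec.1 _ hk (by rw [← hex.choose_spec.2, h])
  have hp2 : ∀ i, (∀ k < 7, X (u i) ≠ u k) → p i = 7 := by
    intro i h
    have hex : ¬ ∃ k < 7, X (u i) = u k := by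
      rintro ⟨k, hk, h'⟩
      exact h k hk h'
    simp only [p, dif_neg hex]
  have hp3 : ∀ i, (p i < 7 ∧ X (u i) = u (p i)) ∨ (p i = 7 ∧ ∀ k < 7, X (u i) ≠ u k) := by
    intro i
    by_cases hex : ∃ k < 7, X (u i) = u k
    · obtain ⟨k, hk, h⟩ := hex
      left
      rw [hp1 i k hk h]
      exact ⟨hk, h⟩
    · push Not at hex
      right
      exact ⟨hp2 i hex, hex⟩
  have hp0 : p 0 = 1 := hp1 0 1 (by norm_num) hleaf
  have hp01 : p 1 = 0 := hp1 1 0 (by norm_num) (by rw [← hleaf, hX.1])
  have hle : ∀ i, p i ≤ 7 := by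
    intro i
    rcases hp3 i with h | h <;> omega
  have hne : ∀ i < 7, p i ≠ i := by
    intro i hi e
    rcases hp3 i with h | h
    · rw [e] at h
      exact hX.2 _ h.2
    · omega
  have hinv : ∀ i < 7, p i < 7 → p (p i) = i := by
    intro i hi h
    rcases hp3 i with h1 | h1
    · apply hp1 (p i) i hi
      rw [← h1.2, hX.1]
    · omega
  have hge : ∀ i, 2 ≤ i → i < 7 → 2 ≤ p i := by
    intro i hi hi2
    by_contra hlt
    have h1 := hinv i hi2 (by omega)
    have h2 : p i = 0 ∨ p i = 1 := by omega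
    rcases h2 with h2 | h2
    · rw [h2, hp0] at h1; omega
    · rw [h2, hp01] at h1; omega
  refine ⟨[1, 0, p 2, p 3, p 4, p 5, p 6], ?_, ?_⟩
  · intro i hi
    have hget : [1, 0, p 2, p 3, p 4, p 5, p 6].getD i 0 = p i := by
      interval_cases i
      · simp [hp0]
      · simp [hp01]
      · simp
      · simp
      · simp
      · simp
      · simp
    rw [hget]
    constructor
    · intro h
      rcases hp3 i with h1 | h1
      · exact h1.2
      · omega
    · intro h
      rcases hp3 i with h1 | h1
      · omega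
      · exact h1.2
  · have hok : okq [1, 0, p 2, p 3, p 4, p 5, p 6] = true := by
      unfold okq
      rw [List.all_eq_true]
      intro i hi
      rw [List.mem_range] at hi
      have hget : ∀ k < 7, [1, 0, p 2, p 3, p 4, p 5, p 6].getD k 0 = p k := by
        intro k hk
        interval_cases k
        · simp [hp0]
        · simp [hp01]
        · simp
        · simp
        · simp
        · simp
        · simp
      rw [hget i hi, Bool.and_eq_true, Bool.or_eq_true, Bool.not_eq_true']
      constructor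
      · rw [Bool.eq_false_iff]
        exact fun h => hne i hi (Nat.eq_of_beq_eq_true h)
      · rcases Nat.lt_or_ge (p i) 7 with h | h
        · right
          rw [hget _ h, hinv i hi h]
          simp
        · left
          rw [Nat.ble_eq]
          exact h
    have hc := table_complete
    simp only [List.all_eq_true, List.mem_range] at hc
    have h2 := hc (p 2) (by have := hle 2; omega)
    rw [Bool.or_eq_true] at h2
    rcases h2 with h2 | h2
    · exfalso
      rw [Nat.ble_eq] at h2
      have h3 := hge 2 (by norm_num) (by norm_num)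
      exact hne 2 (by norm_num) (by omega)
    rw [List.all_eq_true] at h2
    have h3 := h2 (p 3) (by rw [List.mem_range]; have := hle 3; omega)
    simp only [Bool.or_eq_true] at h3
    rcases h3 with (h3 | h3) | h3
    · exfalso
      rw [Nat.ble_eq] at h3
      have := hge 3 (by norm_num) (by norm_num)
      omega
    · exact absurd (Nat.eq_of_beq_eq_true h3) (hne 3 (by norm_num))
    rw [List.all_eq_true] at h3
    have h4 := h3 (p 4) (by rw [List.mem_range]; have := hle 4; omega)
    simp only [Bool.or_eq_true] at h4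
    rcases h4 with (h4 | h4) | h4
    · exfalso
      rw [Nat.ble_eq] at h4
      have := hge 4 (by norm_num) (by norm_num)
      omega
    · exact absurd (Nat.eq_of_beq_eq_true h4) (hne 4 (by norm_num))
    rw [List.all_eq_true] at h4
    have h5 := h4 (p 5) (by rw [List.mem_range]; have := hle 5; omega)
    simp only [Bool.or_eq_true] at h5
    rcases h5 with (h5 | h5) | h5
    · exfalso
      rw [Nat.ble_eq] at h5
      have := hge 5 (by norm_num) (by norm_num)
      omega
    · exact absurd (Nat.eq_of_beq_eq_true h5) (hne 5 (by norm_num))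
    rw [List.all_eq_true] at h5
    have h6 := h5 (p 6) (by rw [List.mem_range]; have := hle 6; omega)
    simp only [Bool.or_eq_true, Bool.not_eq_true', beq_iff_eq] at h6
    rcases h6 with (h6 | h6) | h6
    · rw [hok] at h6
      simp at h6
    · left
      exact h6
    · right
      rw [List.any_eq_true] at h6
      obtain ⟨t, ht, h⟩ := h6
      exact ⟨t, ht, by simpa using h⟩

end window

section step

variable {α : Type*} [DecidableEq α]

omit [DecidableEq α] in
/-- The exceptional case of the window step. -/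
theorem exceptional [Finite α] (σ X : Perm α) (hX : IsDiag X) (u : ℕ → α)
    (hσ : ∀ i < 6, σ (u i) = u (i + 1))
    (L : Set α) (hL : ∀ a ∈ L, X a ∈ L) (huL : ∀ i < 7, u i ∉ L)
    (hLσ : ∀ a ∈ L, σ a ∈ L ∨ σ a = u 0)
    (htr : ∀ S : Set α, S.Nonempty → (∀ a ∈ S, σ a ∈ S) → ∀ a, a ∈ S)
    (w : Fin 12 ↪ α) (hw1 : ∀ t : Fin 12, (t : ℕ) < 7 → w t = u t)
    (hw2 : ∀ t : Fin 12, 7 ≤ (t : ℕ) → w t = X (u (dg code12 t)) ∧ dg code12 t < 7)
    (m0 : Perm (Fin 12)) (hc0 : Codes code12 m0)
    (hw : ∀ i, X (w i) = w (m0 i)) (π : Perm (Fin 12)) (hbad : π 7 = 7)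
    (hπ : ∀ i k, Reach (stepf σ X w) (Set.range w) (w i) (w k) ↔ π i = k) :
    ∃ (X' : Perm α) (k : ℕ), k ≤ 5 ∧ Rch σ k X X' ∧ IsDiag X' ∧ (∀ a ∈ L, X' a = X a) ∧
      ((X' (u 0) = u 1 ∧ X' (u 2) = u 3) ∨
        (X' (u 0) = u 2 ∧ X' (u 1) = u 3 ∧ X' (u 4) = u 5)) := by
  classical
  set f := stepf σ X w with hf
  set P : Set α := Set.range w with hP
  have hpres : ∀ a, a ∉ P → X a ∉ P := by
    rintro a ha ⟨i, hi⟩
    apply ha
    refine ⟨m0 i, ?_⟩
    rw [← hw, hi, hX.1]
  have hinj : Function.Injective f := stepf_injective σ X w hpres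
  have hPL : ∀ a ∈ P, a ∉ L := by
    rintro a ⟨t, rfl⟩ ha
    rcases Nat.lt_or_ge (t : ℕ) 7 with ht | ht
    · rw [hw1 t ht] at ha
      exact huL _ ht ha
    · obtain ⟨h1, h2⟩ := hw2 t ht
      rw [h1] at ha
      have := hL _ ha
      rw [hX.1] at this
      exact huL _ h2 this
  have fP : ∀ a ∈ P, f a = σ a := by
    intro a ha
    simp only [hf, stepf]
    rw [if_pos ha]
  have fN : ∀ a, a ∉ P → f a = σ (X a) := by
    intro a ha
    simp only [hf, stepf]
    rw [if_neg ha]
  set x : α := w 7 with hx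
  have hxP : x ∈ P := ⟨7, rfl⟩
  let A : Set α := {a | Reach f P x a}
  have hAP : ∀ a ∈ A, a ∈ P → a = x := by
    rintro a ha ⟨k, rfl⟩
    have h1 := (hπ 7 k).1 ha
    rw [hbad] at h1
    rw [← h1]
  have hxA : x ∈ A := (hπ 7 7).2 hbad
  have hAf : ∀ a ∈ A, a ∉ P → f a ∈ A := fun a ha hP => Reach.step ha hP
  have hAfx : f x ∈ A := Reach.one
  -- `A` avoids `L`
  have hAL : ∀ a ∈ A, a ∉ L := by
    have hclosed : ∀ a ∈ A ∩ L, f a ∈ A ∩ L := by
      rintro a ⟨ha, haL⟩
      have haP : a ∉ P := fun h => hPL a h haL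
      refine ⟨hAf a ha haP, ?_⟩
      rw [fN a haP]
      rcases hLσ _ (hL a haL) with h1 | h1
      · exact h1
      · exfalso
        have h2 := hAf a ha haP
        rw [fN a haP, h1] at h2
        have h3 : u 0 ∈ P := ⟨0, hw1 0 (by norm_num)⟩
        have h4 := hAP _ h2 h3
        have h5 : w 0 = w 7 := by
          rw [hw1 0 (by norm_num)]
          exact h4
        exact absurd (w.injective h5) (by decide)
    have hsurj : ∀ a ∈ A ∩ L, ∃ b ∈ A ∩ L, f b = a := by
      have h3 := Set.surj_on_of_inj_on_of_ncard_le (s := A ∩ L) (t := A ∩ L) (fun a _ => f a)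
        (fun a ha => hclosed a ha) (fun a b _ _ h => hinj h) le_rfl (Set.toFinite _)
      intro a ha
      obtain ⟨b, hb, hb2⟩ := h3 a ha
      exact ⟨b, hb, hb2.symm⟩
    intro a ha
    change Reach f P x a at ha
    induction ha with
    | one =>
      intro h1
      obtain ⟨b, hb, hb2⟩ := hsurj (f x) ⟨hAfx, h1⟩
      have := hinj hb2
      rw [this] at hb
      exact hPL x hxP hb.2
    | @step r hr hrP ih =>
      intro h1
      obtain ⟨b, hb, hb2⟩ := hsurj (f r) ⟨Reach.step hr hrP, h1⟩
      have := hinj hb2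
      rw [this] at hb
      exact ih hb.2
  -- a chord leaving `A`
  obtain ⟨y, hyA, hyx, hyX⟩ : ∃ y ∈ A, y ≠ x ∧ X y ∉ A := by
    by_contra hno
    push Not at hno
    have hall : ∀ a, a ∈ A := by
      apply htr A ⟨x, hxA⟩
      intro a ha
      by_cases hax : a = x
      · rw [hax, ← fP x hxP]
        exact hAfx
      · have haP : a ∉ P := fun h => hax (hAP a ha h)
        have h1 := hno a ha hax
        have h2 := hAf _ h1 (hpres a haP)
        rw [fN _ (hpres a haP), hX.1] at h2
        exact h2
    have h1 := hAP (w 0) (hall _) ⟨0, rfl⟩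
    exact absurd (w.injective h1) (by decide)
  have hyP : y ∉ P := fun h => hyx (hAP y hyA h)
  set z : α := X y with hz
  have hzP : z ∉ P := hpres y hyP
  have hXz : X z = y := hX.1 y
  have hyz : y ≠ z := (hX.2 y).symm
  have hyL : y ∉ L := hAL y hyA
  have hzL : z ∉ L := by
    intro h
    have := hL z h
    rw [hXz] at this
    exact hyL this
  -- the enlarged configuration
  let w0 : Fin 14 → α := fun t => if h : (t : ℕ) < 12 then w ⟨t, h⟩ else if (t : ℕ) = 12 then y
    else z
  have hw0a : ∀ (t : Fin 14) (h : (t : ℕ) < 12), w0 t = w ⟨t, h⟩ := fun t h => by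
    simp only [w0, dif_pos h]
  have hw0y : w0 12 = y := by simp [w0]
  have hw0z : w0 13 = z := by simp [w0]
  have hcases : ∀ t : Fin 14, (t : ℕ) < 12 ∨ t = 12 ∨ t = 13 := by decide
  have hw0inj : Function.Injective w0 := by
    intro s t hst
    rcases hcases s with hs | rfl | rfl <;> rcases hcases t with ht | rfl | rfl
    · rw [hw0a s hs, hw0a t ht] at hst
      have := w.injective hst
      exact Fin.ext (Fin.mk.inj_iff.1 this)
    · rw [hw0a s hs, hw0y] at hst
      exact absurd ⟨_, hst⟩ hyP
    · rw [hw0a s hs, hw0z] at hst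
      exact absurd ⟨_, hst⟩ hzP
    · rw [hw0a t ht, hw0y] at hst
      exact absurd ⟨_, hst.symm⟩ hyP
    · rfl
    · rw [hw0y, hw0z] at hst
      exact absurd hst hyz
    · rw [hw0a t ht, hw0z] at hst
      exact absurd ⟨_, hst.symm⟩ hzP
    · rw [hw0y, hw0z] at hst
      exact absurd hst.symm hyz
    · rfl
  let w' : Fin 14 ↪ α := ⟨w0, hw0inj⟩
  have hw'a : ∀ (t : Fin 14) (h : (t : ℕ) < 12), w' t = w ⟨t, h⟩ := hw0a
  have hw'y : w' 12 = y := hw0y
  have hw'z : w' 13 = z := hw0z
  have hchk := check14
  rw [Bool.and_eq_true] at hchk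
  obtain ⟨m1, hm1, hc1⟩ := exists_codePerm 14 code14 hchk.1
  have hdg : ∀ t : Fin 12, dg code14 t = dg code12 t := by decide
  have hm1a : ∀ (t : Fin 14) (h : (t : ℕ) < 12), ∃ h' : (m1 t : ℕ) < 12, m0 ⟨t, h⟩ = ⟨m1 t, h'⟩ := by
    intro t h
    have h1 := hc1 t
    have h2 := hc0 ⟨t, h⟩
    have h3 := hdg ⟨t, h⟩
    simp only at h2 h3
    rw [h3, h2] at h1
    have h4 : (m1 t : ℕ) < 12 := by
      rw [← h1]
      exact (m0 ⟨t, h⟩).2
    exact ⟨h4, Fin.ext h1⟩
  have hm1y : m1 12 = 13 := by
    have h1 := hc1 12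
    have h2 : dg code14 12 = 13 := by decide
    change dg code14 12 = _ at h1
    rw [h2] at h1
    exact Fin.ext h1.symm
  have hm1z : m1 13 = 12 := by
    rw [← hm1y, hm1.1]
  have hw' : ∀ i, X (w' i) = w' (m1 i) := by
    intro i
    rcases hcases i with hi | rfl | rfl
    · obtain ⟨h1, h2⟩ := hm1a i hi
      rw [hw'a i hi, hw, h2, hw'a _ h1]
    · rw [hm1y, hw'y, hw'z]
    · rw [hm1z, hw'y, hw'z, hXz]
  -- the paths to `y` and from `z`
  set f' := stepf σ X w' with hf'
  set P' : Set α := Set.range w' with hP'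
  have hP'iff : ∀ a, a ∈ P' ↔ a ∈ P ∨ a = y ∨ a = z := by
    intro a
    constructor
    · rintro ⟨t, rfl⟩
      rcases hcases t with ht | rfl | rfl
      · left
        rw [hw'a t ht]
        exact ⟨_, rfl⟩
      · right; left; exact hw'y
      · right; right; exact hw'z
    · rintro (⟨t, rfl⟩ | rfl | rfl)
      · exact ⟨⟨t, by omega⟩, hw'a ⟨t, by omega⟩ t.2⟩
      · exact ⟨12, hw'y⟩
      · exact ⟨13, hw'z⟩
  have f'P : ∀ a ∈ P', f' a = σ a := by
    intro a ha
    simp only [hf', stepf]
    rw [if_pos ha]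
  have f'N : ∀ a, a ∉ P' → f' a = σ (X a) := by
    intro a ha
    simp only [hf', stepf]
    rw [if_neg ha]
  have f'x : f' x = f x := by
    rw [fP x hxP, f'P x ((hP'iff x).2 (Or.inl hxP))]
  have hstep : ∀ r, r ∉ P → r ≠ y → r ≠ z → r ∉ P' ∧ f' r = f r := by
    intro r h1 h2 h3
    have h4 : r ∉ P' := by
      rw [hP'iff]
      rintro (h | h | h)
      · exact h1 h
      · exact h2 h
      · exact h3 h
    exact ⟨h4, by rw [f'N r h4, fN r h1]⟩
  have hpath1 : ∀ a, Reach f P x a → Reach f' P' x y ∨ Reach f' P' x a := by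
    intro a ha
    induction ha with
    | one =>
      right
      rw [← f'x]
      exact Reach.one
    | @step r hr hrP ih =>
      rcases ih with h | h
      · exact Or.inl h
      · by_cases hry : r = y
        · left
          rw [hry] at h
          exact h
        · have hrz : r ≠ z := by
            rintro rfl
            exact hyX hr
          obtain ⟨h1, h2⟩ := hstep r hrP hry hrz
          right
          rw [← h2]
          exact Reach.step h h1
  have hxy : Reach f' P' x y := by
    rcases hpath1 y hyA with h | h <;> exact h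
  have hpath2 : ∀ a, Reach f P x a → Reach f' P' x a ∨ Reach f' P' z a ∨ Reach f' P' z y := by
    intro a ha
    induction ha with
    | one =>
      left
      rw [← f'x]
      exact Reach.one
    | @step r hr hrP ih =>
      have hrz : r ≠ z := by
        rintro rfl
        exact hyX hr
      rcases ih with h | h | h
      · by_cases hry : r = y
        · right; left
          have h1 : f r = f' z := by
            rw [hry, fN y hyP, f'P z ((hP'iff z).2 (Or.inr (Or.inr rfl)))]
          rw [h1]
          exact Reach.one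
        · obtain ⟨h1, h2⟩ := hstep r hrP hry hrz
          left
          rw [← h2]
          exact Reach.step h h1
      · by_cases hry : r = y
        · right; right
          rw [hry] at h
          exact h
        · obtain ⟨h1, h2⟩ := hstep r hrP hry hrz
          right; left
          rw [← h2]
          exact Reach.step h h1
      · right; right; exact h
  have hcon : ∀ π' : Perm (Fin 14),
      (∀ i k, Reach (stepf σ X w') (Set.range w') (w' i) (w' k) ↔ π' i = k) →
      ∀ (i : Fin 14) (v : ℕ), con14 i = some v → (π' i : ℕ) = v := by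
    intro π' hπ' i v hv
    have h7 : w' 7 = x := hw'a 7 (by norm_num)
    have h712 : π' 7 = 12 := by
      apply (hπ' 7 12).1
      rw [h7, hw'y]
      exact hxy
    unfold con14 at hv
    split_ifs at hv with h1 h2 h3
    · simp only [Option.some.injEq] at hv
      subst hv
      have h4 : π' i = ⟨(i : ℕ) + 1, by omega⟩ := by
        apply (hπ' _ _).1
        have h5 : w' i = u i := by
          rw [hw'a i (by omega), hw1 _ (by change (i : ℕ) < 7; omega)]
        have h6 : w' ⟨(i : ℕ) + 1, by omega⟩ = u ((i : ℕ) + 1) := by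
          rw [hw'a _ (by change (i : ℕ) + 1 < 12; omega), hw1 _ (by change (i : ℕ) + 1 < 7; omega)]
        rw [h6, ← hσ i h1, ← h5, ← f'P (w' i) ⟨i, rfl⟩]
        exact Reach.one
      rw [h4]
    · simp only [Option.some.injEq] at hv
      subst hv
      have : i = 7 := Fin.ext h2
      rw [this, h712]
      rfl
    · simp only [Option.some.injEq] at hv
      subst hv
      have hi : i = 13 := Fin.ext h3
      rw [hi]
      have h8 : π' 13 = 7 := by
        apply (hπ' 13 7).1
        rw [h7, hw'z]
        rcases hpath2 x hxA with h | h | h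
        · exfalso
          have h9 : π' 7 = 7 := by
            apply (hπ' 7 7).1
            rw [h7]
            exact h
          rw [h712] at h9
          exact absurd h9 (by decide)
        · exact h
        · exfalso
          have h9 : π' 13 = 12 := by
            apply (hπ' 13 12).1
            rw [hw'z, hw'y]
            exact h
          exact absurd (π'.injective (h9.trans h712.symm)) (by decide)
      rw [h8]
      rfl
  have hchk2 := hchk.2
  unfold checkCfg at hchk2
  rw [Bool.and_eq_true] at hchk2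
  rcases engine (by norm_num) σ X hX w' m1 hm1 code14 hc1 hw' con14 hcon paths14 tgtMain
    (fun _ => false) 5 hchk2.1 hchk2.2 with ⟨_, _, _, h, _⟩ | ⟨X', m', c', k, g1, g2, g3, g4, g5, g6, g7⟩
  · simp at h
  · refine ⟨X', k, g1, g2, g3, ?_, ?_⟩
    · intro a ha
      apply g7
      change a ∉ P'
      rw [hP'iff]
      rintro (h | h | h)
      · exact hPL a h ha
      · exact hyL (h ▸ ha)
      · exact hzL (h ▸ ha)
    · apply tgtMain_spec (by norm_num) w' u _ X' m' c' g4 g5 g6
      intro t ht
      rw [hw'a t (by omega)]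
      exact hw1 _ ht

omit [DecidableEq α] in
/-- The window step. -/
theorem window_step [Finite α] (σ X : Perm α) (hX : IsDiag X) (u : ℕ → α)
    (hu : ∀ i < 7, ∀ k < 7, u i = u k → i = k)
    (hσ : ∀ i < 6, σ (u i) = u (i + 1)) (hleaf : X (u 0) = u 1)
    (L : Set α) (hL : ∀ a ∈ L, X a ∈ L) (huL : ∀ i < 7, u i ∉ L)
    (hLσ : ∀ a ∈ L, σ a ∈ L ∨ σ a = u 0)
    (htr : ∀ S : Set α, S.Nonempty → (∀ a ∈ S, σ a ∈ S) → ∀ a, a ∈ S) :
    ∃ (X' : Perm α) (k : ℕ), k ≤ 5 ∧ Rch σ k X X' ∧ IsDiag X' ∧ (∀ a ∈ L, X' a = X a) ∧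
      ((X' (u 0) = u 1 ∧ X' (u 2) = u 3) ∨
        (X' (u 0) = u 2 ∧ X' (u 1) = u 3 ∧ X' (u 4) = u 5)) := by
  classical
  obtain ⟨q, hq, hcase⟩ := window_data X hX u hu hleaf
  have hconW : ∀ {N : ℕ} (hN : 7 ≤ N) (w : Fin N ↪ α)
      (hw1 : ∀ t : Fin N, (t : ℕ) < 7 → w t = u t) (π : Perm (Fin N)),
      (∀ i k, Reach (stepf σ X w) (Set.range w) (w i) (w k) ↔ π i = k) →
      ∀ (i : Fin N) (v : ℕ), conW 6 i = some v → (π i : ℕ) = v := by
    intro N hN w hw1 π hπ i v hv
    unfold conW at hv
    split_ifs at hv with h1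
    simp only [Option.some.injEq] at hv
    subst hv
    have h4 : π i = ⟨(i : ℕ) + 1, by omega⟩ := by
      apply (hπ _ _).1
      have h5 : w i = u i := hw1 i (by omega)
      have h6 : w ⟨(i : ℕ) + 1, by omega⟩ = u ((i : ℕ) + 1) :=
        hw1 _ (by change (i : ℕ) + 1 < 7; omega)
      have h7 : stepf σ X w (w i) = σ (w i) := by
        unfold stepf
        rw [if_pos ⟨i, rfl⟩]
      rw [h6, ← hσ i h1, ← h5, ← h7]
      exact Reach.one
    rw [h4]
  have hoffL : ∀ {N c0 : ℕ} (w : Fin N ↪ α)
      (_ : ∀ t : Fin N, (t : ℕ) < 7 → w t = u t)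
      (_ : ∀ t : Fin N, 7 ≤ (t : ℕ) → w t = X (u (dg c0 t)) ∧ dg c0 t < 7),
      ∀ a ∈ L, a ∉ Set.range w := by
    rintro N c0 w hw1 hw2 a ha ⟨t, rfl⟩
    rcases Nat.lt_or_ge (t : ℕ) 7 with ht | ht
    · rw [hw1 t ht] at ha
      exact huL _ ht ha
    · obtain ⟨h1, h2⟩ := hw2 t ht
      rw [h1] at ha
      have := hL _ ha
      rw [hX.1] at this
      exact huL _ h2 this
  rcases hcase with rfl | ⟨t, ht, rfl⟩
  · have hchk := check12
    rw [Bool.and_eq_true] at hchk
    obtain ⟨w, hw1, hw2, m0, hm0, hc0, hw⟩ := mk_w X hX u _ 12 code12 hu hq hchk.1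
    have hchk2 := hchk.2
    unfold checkCfg at hchk2
    rw [Bool.and_eq_true] at hchk2
    rcases engine (by norm_num) σ X hX w m0 hm0 code12 hc0 hw (conW 6)
      (fun π hπ => hconW (by norm_num) w hw1 π hπ) paths12 tgtMain
      (fun cp => Nat.beq cp bad12) 5 hchk2.1 hchk2.2 with
      ⟨π, cp, hcp, h1, h2, _⟩ | ⟨X', m', c', k, g1, g2, g3, g4, g5, g6, g7⟩
    · have h3 := Nat.eq_of_beq_eq_true h1
      subst h3
      have hbad : π 7 = 7 := by
        have h4 := hcp 7
        have h5 : dg bad12 7 = 7 := by decide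
        change dg bad12 7 = _ at h4
        rw [h5] at h4
        exact Fin.ext h4.symm
      exact exceptional σ X hX u hσ L hL huL hLσ htr w hw1 hw2 m0 hc0 hw π hbad h2
    · exact ⟨X', k, g1, g2, g3, fun a ha => g7 a (hoffL w hw1 hw2 a ha),
        tgtMain_spec (by norm_num) w u hw1 X' m' c' g4 g5 g6⟩
  · have hchk := table_check
    rw [List.all_eq_true] at hchk
    have hchk1 := hchk t ht
    rw [Bool.and_eq_true] at hchk1
    obtain ⟨w, hw1, hw2, m0, hm0, hc0, hw⟩ := mk_w X hX u _ t.2.1 t.2.2.1 hu hq hchk1.1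
    have hs := hchk1.1
    simp only [structOK, Bool.and_eq_true, Nat.ble_eq] at hs
    have hchk2 := hchk1.2
    unfold checkCfg at hchk2
    rw [Bool.and_eq_true] at hchk2
    rcases engine hs.1.1.1.2 σ X hX w m0 hm0 _ hc0 hw (conW 6)
      (fun π hπ => hconW hs.1.1.1.1 w hw1 π hπ) t.2.2.2 tgtMain
      (fun _ => false) 5 hchk2.1 hchk2.2 with
      ⟨π, cp, hcp, h1, h2, _⟩ | ⟨X', m', c', k, g1, g2, g3, g4, g5, g6, g7⟩
    · simp at h1
    · exact ⟨X', k, g1, g2, g3, fun a ha => g7 a (hoffL w hw1 hw2 a ha),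
        tgtMain_spec hs.1.1.1.1 w u hw1 X' m' c' g4 g5 g6⟩

end step

section small

variable {α : Type*}

/-- The local tool for a configuration given by a code. -/
theorem engine' [Finite α] {N : ℕ} (hN : N ≤ 16) (σ X : Perm α) (hX : IsDiag X) (w : Fin N ↪ α)
    (c0 : ℕ) (hinv : isInv N c0 = true)
    (hw : ∀ i k : Fin N, dg c0 i = (k : ℕ) → X (w i) = w k) (con : ℕ → Option ℕ)
    (hcon : ∀ π : Perm (Fin N),
      (∀ i k, Reach (stepf σ X w) (Set.range w) (w i) (w k) ↔ π i = k) →
      ∀ (i : Fin N) (v : ℕ), con i = some v → (π i : ℕ) = v)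
    (paths : List (List (ℕ × ℕ × ℕ))) (tgt extra : ℕ → Bool) (B : ℕ)
    (hcheck : checkCfg N c0 con paths tgt extra B = true) :
    (∃ π : Perm (Fin N), ∃ cp, Codes cp π ∧ extra cp = true ∧
      (∀ i k : Fin N, dg c0 i = (k : ℕ) → cls (σ * X) (w (π k)) = cls (σ * X) (w i))) ∨
    ∃ (X' : Perm α) (c' k : ℕ), k ≤ B ∧ Rch σ k X X' ∧ IsDiag X' ∧ tgt c' = true ∧
        (∀ i k : Fin N, dg c' i = (k : ℕ) → X' (w i) = w k) ∧
        (∀ a, a ∉ Set.range w → X' a = X a) := by
  classical
  obtain ⟨m0, hm0, hc0⟩ := exists_codePerm N c0 hinv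
  have hw' : ∀ i, X (w i) = w (m0 i) := fun i => hw i (m0 i) (hc0 i)
  unfold checkCfg at hcheck
  rw [Bool.and_eq_true] at hcheck
  rcases engine hN σ X hX w m0 hm0 c0 hc0 hw' con hcon paths tgt extra B hcheck.1 hcheck.2 with
    ⟨π, cp, hcp, h1, _, h3⟩ | ⟨X', m', c', k, g1, g2, g3, g4, g5, g6, g7⟩
  · left
    refine ⟨π, cp, hcp, h1, ?_⟩
    intro i k hik
    have : m0 i = k := Fin.ext (by rw [← hc0 i, hik])
    rw [← this]
    exact h3 i
  · right
    refine ⟨X', c', k, g1, g2, g3, g5, ?_, g7⟩
    intro i k' hik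
    have : m' i = k' := Fin.ext (by rw [← g4 i, hik])
    rw [← this]
    exact g6 i

/-- Consecutive sides. -/
theorem conW_ok {N : ℕ} (σ X : Perm α) (w : Fin N ↪ α) (k : ℕ) (hk : k < N)
    (hσ : ∀ (i : ℕ) (hi : i < k), σ (w ⟨i, by omega⟩) = w ⟨i + 1, by omega⟩) :
    ∀ π : Perm (Fin N),
      (∀ i k, Reach (stepf σ X w) (Set.range w) (w i) (w k) ↔ π i = k) →
      ∀ (i : Fin N) (v : ℕ), conW k i = some v → (π i : ℕ) = v := by
  classical
  intro π hπ i v hv
  unfold conW at hv
  split_ifs at hv with h1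
  simp only [Option.some.injEq] at hv
  subst hv
  have h4 : π i = ⟨(i : ℕ) + 1, by omega⟩ := by
    apply (hπ _ _).1
    have h7 : stepf σ X w (w i) = σ (w i) := by
      unfold stepf
      rw [if_pos ⟨i, rfl⟩]
    rw [← hσ i h1, ← h7]
    exact Reach.one
  rw [h4]

/-- Build an embedding from a list. -/
def embL (L : List α) (h : L.Nodup) : Fin L.length ↪ α := ⟨L.get, List.nodup_iff_injective_get.1 h⟩

theorem chk_shift : checkCfg 4 8961 (conW 2) [[(0, 3, 291)]] (fun c => Nat.beq (dg c 1) 2)
    (fun _ => false) 1 = true := by decide +kernel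

/-- A leaf can be moved by one position. -/
theorem shift_step [Finite α] (σ X : Perm α) (hX : IsDiag X) (q : α) (h1 : X q = σ q)
    (h2 : σ (σ q) ≠ q) :
    ∃ (X' : Perm α) (k : ℕ), k ≤ 1 ∧ Rch σ k X X' ∧ IsDiag X' ∧ X' (σ q) = σ (σ q) := by
  have hq1 : σ q ≠ q := by rw [← h1]; exact hX.2 q
  have hq2 : σ (σ q) ≠ σ q := fun e => hq1 (σ.injective e)
  have hXs : X (σ q) = q := by rw [← h1, hX.1]
  have hx1 : X (σ (σ q)) ≠ q := by
    intro e
    have := congrArg X e
    rw [hX.1, h1] at this
    exact hq2 this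
  have hx2 : X (σ (σ q)) ≠ σ q := by
    intro e
    have := congrArg X e
    rw [hX.1, hXs] at this
    exact h2 this
  have hx3 : X (σ (σ q)) ≠ σ (σ q) := hX.2 _
  let w : Fin 4 ↪ α := embL [q, σ q, σ (σ q), X (σ (σ q))] (by
    simp [hq1.symm, h2.symm, hx1.symm, hq2.symm, hx2.symm, hx3.symm])
  have e0 : w 0 = q := rfl
  have e1 : w 1 = σ q := rfl
  have e2 : w 2 = σ (σ q) := rfl
  have e3 : w 3 = X (σ (σ q)) := rfl
  rcases engine' (by norm_num) σ X hX w 8961 (by decide) (by
    intro i k h
    fin_cases i <;> fin_cases k <;> first | exact absurd h (by decide) | skip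
    · change X (w 0) = w 1
      rw [e0, e1, h1]
    · change X (w 1) = w 0
      rw [e0, e1, hXs]
    · rfl
    · change X (w 3) = w 2
      rw [e3, e2, hX.1]) (conW 2) (conW_ok σ X w 2 (by norm_num) (by
    intro i hi
    interval_cases i <;> rfl)) _ _ _ 1 chk_shift with ⟨_, _, _, h, _⟩ | ⟨X', c', k, g1, g2, g3, g4, g5, _⟩
  · simp at h
  · refine ⟨X', k, g1, g2, g3, ?_⟩
    have := g5 1 2 (Nat.eq_of_beq_eq_true g4)
    rw [e1, e2] at this
    exact this

/-- Does the orbit of the product reach `t`? -/
def hits (cp cm t : ℕ) : ℕ → ℕ → Bool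
  | 0, _ => false
  | k + 1, x => Nat.beq (dg cp (dg cm x)) t || hits cp cm t k (dg cp (dg cm x))

theorem hits_spec {N : ℕ} {β : Type*} (cp cm : ℕ) (π : Perm (Fin N)) (hcp : Codes cp π)
    (hcm : ∀ i : Fin N, dg cm i < N) (F : Fin N → β)
    (hF : ∀ i k : Fin N, dg cm i = (k : ℕ) → F (π k) = F i) (t : Fin N) :
    ∀ (k : ℕ) (x : Fin N), hits cp cm t k x = true → F t = F x := by
  intro k
  induction k with
  | zero => intro x h; simp [hits] at h
  | succ k ih =>
    intro x h
    have h1 : dg cp (dg cm x) = (π ⟨dg cm x, hcm x⟩ : ℕ) := hcp ⟨dg cm x, hcm x⟩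
    have h2 : F (π ⟨dg cm x, hcm x⟩) = F x := hF x ⟨dg cm x, hcm x⟩ rfl
    simp only [hits, Bool.or_eq_true] at h
    rcases h with h | h
    · have h3 := Nat.eq_of_beq_eq_true h
      rw [h1] at h3
      have h4 : π ⟨dg cm x, hcm x⟩ = t := Fin.ext h3
      rw [← h4, h2]
    · rw [h1] at h
      rw [ih _ h, h2]

theorem chk_boot4 : checkCfg 4 4146 (conW 2) [] (fun _ => false)
    (fun cp => hits cp 4146 2 4 1) 2 = true := by decide +kernel

theorem chk_boot6 : checkCfg 6 2164035 (conW 2)
    [[(0, 1, 2311425)], [(1, 2, 4522275)], [(0, 2, 3231810), (0, 4, 3166500)]]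
    (fun c => Nat.beq (dg c 0) 1 || Nat.beq (dg c 1) 2)
    (fun cp => hits cp 2164035 2 6 1) 2 = true := by decide +kernel

/-- Creating a leaf next to a side whose ends are different vertices. -/
theorem boot_step [Finite α] (σ X : Perm α) (hX : IsDiag X) (u0 u1 u2 : α) (h01 : σ u0 = u1)
    (h12 : σ u1 = u2) (hne01 : u0 ≠ u1) (hne02 : u0 ≠ u2) (hne12 : u1 ≠ u2)
    (hcls : cls (σ * X) u1 ≠ cls (σ * X) u2) :
    ∃ (X' : Perm α) (k : ℕ), k ≤ 2 ∧ Rch σ k X X' ∧ IsDiag X' ∧ (X' u0 = u1 ∨ X' u1 = u2) := by
  by_cases c1 : X u0 = u1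
  · exact ⟨X, 0, by norm_num, Rch.refl X, hX, Or.inl c1⟩
  by_cases c2 : X u1 = u2
  · exact ⟨X, 0, by norm_num, Rch.refl X, hX, Or.inr c2⟩
  have c1' : X u1 ≠ u0 := fun e => c1 (by rw [← e, hX.1])
  have c2' : X u2 ≠ u1 := fun e => c2 (by rw [← e, hX.1])
  by_cases c3 : X u0 = u2
  · have c3' : X u2 = u0 := by rw [← c3, hX.1]
    let w : Fin 4 ↪ α := embL [u0, u1, u2, X u1] (by
      simp [hne01, hne02, hne12, c1'.symm, (hX.2 u1).symm, Ne.symm c2])
    have e0 : w 0 = u0 := rfl
    have e1 : w 1 = u1 := rfl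
    have e2 : w 2 = u2 := rfl
    have e3 : w 3 = X u1 := rfl
    rcases engine' (by norm_num) σ X hX w 4146 (by decide) (by
      intro i k h
      fin_cases i <;> fin_cases k <;> first | exact absurd h (by decide) | skip
      · exact c3
      · rfl
      · exact c3'
      · change X (X u1) = u1
        exact hX.1 u1) (conW 2) (conW_ok σ X w 2 (by norm_num) (by
      intro i hi
      interval_cases i
      · exact h01
      · exact h12)) _ _ _ 2 chk_boot4 with ⟨π, cp, g1, g2, g3⟩ | ⟨X', c', k, g1, g2, g3, g4, g5, _⟩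
    · exfalso
      have := hits_spec cp 4146 π g1 (by decide) (fun i => cls (σ * X) (w i)) g3 2 4 1 g2
      exact hcls this.symm
    · simp at g4
  · have c3' : X u2 ≠ u0 := fun e => c3 (by rw [← e, hX.1])
    have d1 : X u0 ≠ X u1 := fun e => hne01 (X.injective e)
    have d2 : X u0 ≠ X u2 := fun e => hne02 (X.injective e)
    have d3 : X u1 ≠ X u2 := fun e => hne12 (X.injective e)
    let w : Fin 6 ↪ α := embL [u0, u1, u2, X u0, X u1, X u2] (by
      simp [hne01, hne02, hne12, (hX.2 u0).symm, (hX.2 u1).symm, (hX.2 u2).symm, Ne.symm c1,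
        Ne.symm c2, Ne.symm c3, c1'.symm, c2'.symm, c3'.symm, d1, d2, d3])
    have e0 : w 0 = u0 := rfl
    have e1 : w 1 = u1 := rfl
    have e2 : w 2 = u2 := rfl
    rcases engine' (by norm_num) σ X hX w 2164035 (by decide) (by
      intro i k h
      fin_cases i <;> fin_cases k <;> first | exact absurd h (by decide) | skip
      · rfl
      · rfl
      · rfl
      · exact hX.1 u0
      · exact hX.1 u1
      · exact hX.1 u2) (conW 2) (conW_ok σ X w 2 (by norm_num) (by
      intro i hi
      interval_cases i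
      · exact h01
      · exact h12)) _ _ _ 2 chk_boot6 with ⟨π, cp, g1, g2, g3⟩ | ⟨X', c', k, g1, g2, g3, g4, g5, _⟩
    · exfalso
      have := hits_spec cp 2164035 π g1 (by decide) (fun i => cls (σ * X) (w i)) g3 2 6 1 g2
      exact hcls this.symm
    · refine ⟨X', k, g1, g2, g3, ?_⟩
      rw [Bool.or_eq_true] at g4
      rcases g4 with g4 | g4
      · left
        have := g5 0 1 (Nat.eq_of_beq_eq_true g4)
        rw [e0, e1] at this
        exact this
      · right
        have := g5 1 2 (Nat.eq_of_beq_eq_true g4)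
        rw [e1, e2] at this
        exact this

/-- The target handle, leaf. -/
def tgtHL (c : ℕ) : Bool := Nat.beq (dg c 0) 2 && Nat.beq (dg c 1) 3 && Nat.beq (dg c 4) 5

theorem chk_LH : checkCfg 6 3298305 (conW 5) [[(0, 5, 136245), (0, 2, 4526130)]] tgtHL
    (fun _ => false) 2 = true := by decide +kernel

/-- Leaf followed by handle becomes handle followed by leaf. -/
theorem LH_step [Finite α] (σ X : Perm α) (hX : IsDiag X) (u : ℕ → α)
    (hu : ∀ i < 6, ∀ k < 6, u i = u k → i = k) (hσ : ∀ i < 5, σ (u i) = u (i + 1))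
    (h0 : X (u 0) = u 1) (h2 : X (u 2) = u 4) (h3 : X (u 3) = u 5) :
    ∃ (X' : Perm α) (k : ℕ), k ≤ 2 ∧ Rch σ k X X' ∧ IsDiag X' ∧
      (X' (u 0) = u 2 ∧ X' (u 1) = u 3 ∧ X' (u 4) = u 5) ∧
      ∀ a, (∀ i < 6, a ≠ u i) → X' a = X a := by
  let w : Fin 6 ↪ α := ⟨fun i => u i, fun i k h => Fin.ext (hu i i.2 k k.2 h)⟩
  have e : ∀ i : Fin 6, w i = u i := fun _ => rfl
  rcases engine' (by norm_num) σ X hX w 3298305 (by decide) (by
    intro i k h
    fin_cases i <;> fin_cases k <;> first | exact absurd h (by decide) | skip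
    · exact h0
    · change X (u 1) = u 0
      rw [← h0, hX.1]
    · exact h2
    · exact h3
    · change X (u 4) = u 2
      rw [← h2, hX.1]
    · change X (u 5) = u 3
      rw [← h3, hX.1]) (conW 5) (conW_ok σ X w 5 (by norm_num) (by
    intro i hi
    exact hσ i hi)) _ _ _ 2 chk_LH with ⟨π, cp, g1, g2, g3⟩ | ⟨X', c', k, g1, g2, g3, g4, g5, g6⟩
  · simp at g2
  · refine ⟨X', k, g1, g2, g3, ?_, ?_⟩
    · simp only [tgtHL, Bool.and_eq_true] at g4
      obtain ⟨⟨t1, t2⟩, t3⟩ := g4
      exact ⟨g5 0 2 (Nat.eq_of_beq_eq_true t1), g5 1 3 (Nat.eq_of_beq_eq_true t2),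
        g5 4 5 (Nat.eq_of_beq_eq_true t3)⟩
    · intro a ha
      apply g6
      rintro ⟨i, rfl⟩
      exact ha i i.2 rfl

theorem chk_nest : checkCfg 6 2311425 (conW 5) [[(2, 3, 4530945)]]
    (fun c => Nat.beq (dg c 0) 1 && Nat.beq (dg c 2) 3) (fun _ => false) 1 = true := by
  decide +kernel

/-- Leaf followed by two nested pairs. -/
theorem nest_step [Finite α] (σ X : Perm α) (hX : IsDiag X) (u : ℕ → α)
    (hu : ∀ i < 6, ∀ k < 6, u i = u k → i = k) (hσ : ∀ i < 5, σ (u i) = u (i + 1))
    (h0 : X (u 0) = u 1) (h2 : X (u 2) = u 5) (h3 : X (u 3) = u 4) :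
    ∃ (X' : Perm α) (k : ℕ), k ≤ 1 ∧ Rch σ k X X' ∧ IsDiag X' ∧
      (X' (u 0) = u 1 ∧ X' (u 2) = u 3) ∧ ∀ a, (∀ i < 6, a ≠ u i) → X' a = X a := by
  let w : Fin 6 ↪ α := ⟨fun i => u i, fun i k h => Fin.ext (hu i i.2 k k.2 h)⟩
  rcases engine' (by norm_num) σ X hX w 2311425 (by decide) (by
    intro i k h
    fin_cases i <;> fin_cases k <;> first | exact absurd h (by decide) | skip
    · exact h0
    · change X (u 1) = u 0
      rw [← h0, hX.1]
    · exact h2
    · exact h3
    · change X (u 4) = u 3
      rw [← h3, hX.1]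
    · change X (u 5) = u 2
      rw [← h2, hX.1]) (conW 5) (conW_ok σ X w 5 (by norm_num) (by
    intro i hi
    exact hσ i hi)) _ _ _ 1 chk_nest with ⟨π, cp, g1, g2, g3⟩ | ⟨X', c', k, g1, g2, g3, g4, g5, g6⟩
  · simp at g2
  · refine ⟨X', k, g1, g2, g3, ?_, ?_⟩
    · simp only [Bool.and_eq_true] at g4
      obtain ⟨t1, t2⟩ := g4
      exact ⟨g5 0 1 (Nat.eq_of_beq_eq_true t1), g5 2 3 (Nat.eq_of_beq_eq_true t2)⟩
    · intro a ha
      apply g6
      rintro ⟨i, rfl⟩
      exact ha i i.2 rfl

/-- The target handle, leaf, leaf. -/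
def tgtHLL (c : ℕ) : Bool :=
  Nat.beq (dg c 0) 2 && Nat.beq (dg c 1) 3 && Nat.beq (dg c 4) 5 && Nat.beq (dg c 6) 7

theorem chk_exch : checkCfg 8 1417028353 (conW 7)
    [[(2, 5, 874935553), (2, 6, 843412993), (0, 7, 38082103), (0, 2, 1732579378)]] tgtHLL
    (fun _ => false) 4 = true := by decide +kernel

/-- Exchanging two leaves with a handle, where the part in between is transparent. -/
theorem exch_step [Finite α] (σ X : Perm α) (hX : IsDiag X) (u v : ℕ → α)
    (hu : ∀ i < 4, ∀ k < 4, u i = u k → i = k) (hv : ∀ i < 4, ∀ k < 4, v i = v k → i = k)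
    (huv : ∀ i < 4, ∀ k < 4, u i ≠ v k)
    (hσu : ∀ i < 3, σ (u i) = u (i + 1)) (hσv : ∀ i < 3, σ (v i) = v (i + 1))
    (hr : ∀ P : Set α, (∀ a, a ∈ P ↔ ((∃ i < 4, a = u i) ∨ ∃ i < 4, a = v i)) →
      ∀ f : α → α, (∀ a ∈ P, f a = σ a) → (∀ a, a ∉ P → f a = σ (X a)) → Reach f P (u 3) (v 0))
    (h0 : X (u 0) = u 1) (h2 : X (u 2) = u 3) (h4 : X (v 0) = v 2) (h5 : X (v 1) = v 3) :
    ∃ (X' : Perm α) (k : ℕ), k ≤ 4 ∧ Rch σ k X X' ∧ IsDiag X' ∧
      (X' (u 0) = u 2 ∧ X' (u 1) = u 3 ∧ X' (v 0) = v 1 ∧ X' (v 2) = v 3) ∧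
      ∀ a, (∀ i < 4, a ≠ u i) → (∀ i < 4, a ≠ v i) → X' a = X a := by
  classical
  let w0 : Fin 8 → α := fun i => if (i : ℕ) < 4 then u i else v (i - 4)
  have hw0 : Function.Injective w0 := by
    intro i k h
    simp only [w0] at h
    split_ifs at h with h1 h2 h2
    · exact Fin.ext (hu i h1 k h2 h)
    · exact absurd h (huv i h1 (k - 4) (by omega))
    · exact absurd h.symm (huv k h2 (i - 4) (by omega))
    · have := hv (i - 4) (by omega) (k - 4) (by omega) h
      exact Fin.ext (by omega)
  let w : Fin 8 ↪ α := ⟨w0, hw0⟩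
  have hmem : ∀ a, a ∈ Set.range w ↔ ((∃ i < 4, a = u i) ∨ ∃ i < 4, a = v i) := by
    intro a
    constructor
    · rintro ⟨i, rfl⟩
      change (∃ j < 4, w0 i = u j) ∨ ∃ j < 4, w0 i = v j
      simp only [w0]
      split_ifs with h1
      · left; exact ⟨i, h1, rfl⟩
      · right; exact ⟨i - 4, by omega, rfl⟩
    · rintro (⟨i, hi, rfl⟩ | ⟨i, hi, rfl⟩)
      · refine ⟨⟨i, by omega⟩, ?_⟩
        change w0 ⟨i, by omega⟩ = u i
        simp [w0, hi]
      · refine ⟨⟨i + 4, by omega⟩, ?_⟩
        change w0 ⟨i + 4, by omega⟩ = v i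
        simp [w0]
  have hreach := hr (Set.range w) hmem (stepf σ X w) (by
    intro a ha
    simp only [stepf]
    rw [if_pos ha]) (by
    intro a ha
    simp only [stepf]
    rw [if_neg ha])
  have hcon : ∀ π : Perm (Fin 8),
      (∀ i k, Reach (stepf σ X w) (Set.range w) (w i) (w k) ↔ π i = k) →
      ∀ (i : Fin 8) (v : ℕ), conW 7 i = some v → (π i : ℕ) = v := by
    intro π hπ i v' hv'
    unfold conW at hv'
    split_ifs at hv' with h1
    simp only [Option.some.injEq] at hv'
    subst hv'
    have key : ∀ i k : Fin 8, σ (w i) = w k → π i = k := by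
      intro i k h
      apply (hπ i k).1
      have h7 : stepf σ X w (w i) = σ (w i) := by
        unfold stepf
        rw [if_pos ⟨i, rfl⟩]
      rw [← h, ← h7]
      exact Reach.one
    have hi8 := i.2
    have : ∀ j : ℕ, j < 7 → ∀ hj : j < 8, (π ⟨j, hj⟩ : ℕ) = j + 1 := by
      intro j hj7 hj
      interval_cases j
      · rw [key ⟨0, hj⟩ ⟨1, by norm_num⟩ (hσu 0 (by norm_num))]
      · rw [key ⟨1, hj⟩ ⟨2, by norm_num⟩ (hσu 1 (by norm_num))]
      · rw [key ⟨2, hj⟩ ⟨3, by norm_num⟩ (hσu 2 (by norm_num))]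
      · rw [(hπ ⟨3, hj⟩ ⟨4, by norm_num⟩).1 hreach]
      · rw [key ⟨4, hj⟩ ⟨5, by norm_num⟩ (hσv 0 (by norm_num))]
      · rw [key ⟨5, hj⟩ ⟨6, by norm_num⟩ (hσv 1 (by norm_num))]
      · rw [key ⟨6, hj⟩ ⟨7, by norm_num⟩ (hσv 2 (by norm_num))]
    exact this i h1 i.2
  rcases engine' (by norm_num) σ X hX w 1417028353 (by decide) (by
    intro i k h
    fin_cases i <;> fin_cases k <;> first | exact absurd h (by decide) | skip
    · exact h0
    · change X (u 1) = u 0
      rw [← h0, hX.1]
    · exact h2
    · change X (u 3) = u 2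
      rw [← h2, hX.1]
    · exact h4
    · exact h5
    · change X (v 2) = v 0
      rw [← h4, hX.1]
    · change X (v 3) = v 1
      rw [← h5, hX.1]) (conW 7) hcon _ _ _ 4 chk_exch with
      ⟨π, cp, g1, g2, g3⟩ | ⟨X', c', k, g1, g2, g3, g4, g5, g6⟩
  · simp at g2
  · refine ⟨X', k, g1, g2, g3, ?_, ?_⟩
    · simp only [tgtHLL, Bool.and_eq_true] at g4
      obtain ⟨⟨⟨t1, t2⟩, t3⟩, t4⟩ := g4
      exact ⟨g5 0 2 (Nat.eq_of_beq_eq_true t1), g5 1 3 (Nat.eq_of_beq_eq_true t2),
        g5 4 5 (Nat.eq_of_beq_eq_true t3), g5 6 7 (Nat.eq_of_beq_eq_true t4)⟩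
    · intro a ha ha'
      apply g6
      rw [hmem]
      rintro (⟨i, hi, h⟩ | ⟨i, hi, h⟩)
      · exact ha i hi h
      · exact ha' i hi h

/-- Replacing two consecutive leaves by a handle lowers the number of orbits by two. -/
theorem handle_step [Finite α] (σ X : Perm α) (hX : IsDiag X) (u : ℕ → α)
    (hu : ∀ i < 4, ∀ k < 4, u i = u k → i = k) (hσ : ∀ i < 3, σ (u i) = u (i + 1))
    (h0 : X (u 0) = u 1) (h2 : X (u 2) = u 3) :
    ∃ X' : Perm α, IsDiag X' ∧ X' (u 0) = u 2 ∧ X' (u 1) = u 3 ∧
      (∀ a, (∀ i < 4, a ≠ u i) → X' a = X a) ∧ orb (σ * X') + 2 = orb (σ * X) := by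
  classical
  let w : Fin 4 ↪ α := ⟨fun i => u i, fun i k h => Fin.ext (hu i i.2 k k.2 h)⟩
  have e : ∀ i : Fin 4, w i = u i := fun _ => rfl
  obtain ⟨m0, hm0, hc0⟩ := exists_codePerm 4 8961 (by decide)
  have hw : ∀ i, X (w i) = w (m0 i) := by
    have key : ∀ i k : Fin 4, dg 8961 i = (k : ℕ) → X (w i) = w k := by
      intro i k h
      fin_cases i <;> fin_cases k <;> first | exact absurd h (by decide) | skip
      · exact h0
      · change X (u 1) = u 0
        rw [← h0, hX.1]
      · exact h2
      · change X (u 3) = u 2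
        rw [← h2, hX.1]
    exact fun i => key i (m0 i) (hc0 i)
  obtain ⟨π, K, hπ, hK, _⟩ := local_pi σ X hX w m0 hw
  have hcons := conW_ok σ X w 3 (by norm_num) (fun i hi => hσ i hi) π hπ
  have hπ0 : (π 0 : ℕ) = 1 := hcons 0 1 rfl
  have hπ1 : (π 1 : ℕ) = 2 := hcons 1 2 rfl
  have hπ2 : (π 2 : ℕ) = 3 := hcons 2 3 rfl
  have hπ3 : (π 3 : ℕ) = 0 := by
    have h3 : π 3 ≠ π 0 := fun e => absurd (π.injective e) (by decide)
    have h4 : π 3 ≠ π 1 := fun e => absurd (π.injective e) (by decide)
    have h5 : π 3 ≠ π 2 := fun e => absurd (π.injective e) (by decide)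
    have h6 : (π 3 : ℕ) ≠ 1 := fun e => h3 (Fin.ext (by rw [e, hπ0]))
    have h7 : (π 3 : ℕ) ≠ 2 := fun e => h4 (Fin.ext (by rw [e, hπ1]))
    have h8 : (π 3 : ℕ) ≠ 3 := fun e => h5 (Fin.ext (by rw [e, hπ2]))
    omega
  have hcp : Codes 801 π := by
    intro i
    fin_cases i
    · exact hπ0.symm
    · exact hπ1.symm
    · exact hπ2.symm
    · exact hπ3.symm
  obtain ⟨m1, hm1, hc1⟩ := exists_codePerm 4 4146 (by decide)
  let a := u 0
  have d01 : u 2 ≠ u 0 := fun e => by have := hu 2 (by norm_num) 0 (by norm_num) e; omega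
  have d02 : u 2 ≠ X (u 0) := by
    rw [h0]
    exact fun e => by have := hu 2 (by norm_num) 1 (by norm_num) e; omega
  obtain ⟨s1, s2, s3, s4, s5⟩ := swapAt_spec X hX (u 0) (u 2) d01 d02
  obtain ⟨s6, s7⟩ := swapAt_diag X hX (u 0) (u 2) d01 d02
  rw [h0, h2] at s3
  rw [h2, h0] at s4
  rw [h0, h2] at s5
  have hoff : ∀ a, (∀ i < 4, a ≠ u i) → swapAt X (u 0) (u 2) a = X a := by
    intro a ha
    exact s5 a (ha 0 (by norm_num)) (ha 2 (by norm_num)) (ha 1 (by norm_num)) (ha 3 (by norm_num))
  have hw1 : ∀ i, swapAt X (u 0) (u 2) (w i) = w (m1 i) := by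
    have key : ∀ i k : Fin 4, dg 4146 i = (k : ℕ) → swapAt X (u 0) (u 2) (w i) = w k := by
      intro i k h
      fin_cases i <;> fin_cases k <;> first | exact absurd h (by decide) | skip
      · exact s1
      · exact s3
      · exact s2
      · exact s4
    exact fun i => key i (m1 i) (hc1 i)
  have k1 := hK X m0 hw (fun _ _ => rfl)
  have k2 := hK (swapAt X (u 0) (u 2)) m1 hw1 (by
    intro a ha
    apply hoff
    intro i hi e
    exact ha ⟨⟨i, hi⟩, e.symm⟩)
  have r1 : orb (π * m0) = 3 := cnt_spec 801 8961 π m0 hcp hc0 3 (by decide)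
  have r2 : orb (π * m1) = 1 := cnt_spec 801 4146 π m1 hcp hc1 1 (by decide)
  refine ⟨swapAt X (u 0) (u 2), s6, s1, s3, hoff, ?_⟩
  rw [r1] at k1
  rw [r2] at k2
  omega

end small

/-! ### Positions on the polygon -/

section positions

variable {n : ℕ}

/-- The rotation. -/
def rot (n : ℕ) : Perm (ZMod (2 * n)) := Equiv.addRight 1

/-- The `j`-th position. -/
def ps (n : ℕ) (j : ℕ) : ZMod (2 * n) := (j : ZMod (2 * n))

theorem rot_ps (j : ℕ) : rot n (ps n j) = ps n (j + 1) := by
  simp [rot, ps]

theorem val_ps {j : ℕ} (hj : j < 2 * n) : (ps n j).val = j := ZMod.val_natCast_of_lt hj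

theorem ps_inj {j k : ℕ} (hj : j < 2 * n) (hk : k < 2 * n) (h : ps n j = ps n k) : j = k := by
  rw [← val_ps hj, ← val_ps hk, h]

theorem ps_val [NeZero (2 * n)] (x : ZMod (2 * n)) : ps n x.val = x := ZMod.natCast_zmod_val x

theorem rot_trans [NeZero (2 * n)] (S : Set (ZMod (2 * n))) (hne : S.Nonempty)
    (hS : ∀ a ∈ S, rot n a ∈ S) : ∀ a, a ∈ S := by
  obtain ⟨a, ha⟩ := hne
  have h1 : ∀ k : ℕ, a + (k : ZMod (2 * n)) ∈ S := by
    intro k
    induction k with
    | zero => simpa using ha
    | succ k ih =>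
      have := hS _ ih
      simp only [rot, Equiv.coe_addRight] at this
      push_cast
      rw [← add_assoc]
      exact this
  intro b
  have h2 := h1 (b - a).val
  rw [ZMod.natCast_zmod_val] at h2
  simpa using h2

/-- The first `a` blocks are handles, the next `b` blocks are leaves. -/
def Pre (a b : ℕ) (X : Perm (ZMod (2 * n))) : Prop :=
  (∀ i < a, X (ps n (4 * i)) = ps n (4 * i + 2) ∧ X (ps n (4 * i + 1)) = ps n (4 * i + 3)) ∧
    ∀ i < b, X (ps n (4 * a + 2 * i)) = ps n (4 * a + 2 * i + 1)

/-- The explicit form. -/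
def canf (a v : ℕ) : ℕ :=
  if v < 4 * a then (if v % 4 < 2 then v + 2 else v - 2) else (if v % 2 = 0 then v + 1 else v - 1)

theorem canf_lt {a b v : ℕ} (hv : v < 4 * a + 2 * b) : canf a v < 4 * a + 2 * b := by
  unfold canf
  split_ifs <;> omega

theorem Pre.apply {a b : ℕ} {X : Perm (ZMod (2 * n))} (h : Pre a b X) (hX : IsDiag X) {v : ℕ}
    (hv : v < 4 * a + 2 * b) : X (ps n v) = ps n (canf a v) := by
  unfold canf
  split_ifs with h1 h2 h2
  · have h3 := h.1 (v / 4) (by omega)
    have h4 : v % 4 = 0 ∨ v % 4 = 1 := by omega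
    rcases h4 with h4 | h4
    · have e : v = 4 * (v / 4) := by omega
      rw [e]
      exact h3.1
    · have e : v = 4 * (v / 4) + 1 := by omega
      rw [e]
      exact h3.2
  · have h3 := h.1 (v / 4) (by omega)
    have h4 : v % 4 = 2 ∨ v % 4 = 3 := by omega
    rcases h4 with h4 | h4
    · have e : v = 4 * (v / 4) + 2 := by omega
      rw [e, ← h3.1, hX.1]
      congr 1
    · have e : v = 4 * (v / 4) + 3 := by omega
      rw [e, ← h3.2, hX.1]
      congr 1
  · have h3 := h.2 ((v - 4 * a) / 2) (by omega)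
    have e : v = 4 * a + 2 * ((v - 4 * a) / 2) := by omega
    rw [e]
    exact h3
  · have h3 := h.2 ((v - 4 * a) / 2) (by omega)
    have e : v = 4 * a + 2 * ((v - 4 * a) / 2) + 1 := by omega
    rw [e, ← h3, hX.1]
    congr 1

theorem Pre.closed {a b : ℕ} {X : Perm (ZMod (2 * n))} [NeZero (2 * n)] (h : Pre a b X)
    (hX : IsDiag X) (hab : 4 * a + 2 * b ≤ 2 * n) (x : ZMod (2 * n))
    (hx : x.val < 4 * a + 2 * b) : (X x).val < 4 * a + 2 * b := by
  have h1 := h.apply hX hx
  rw [ps_val] at h1
  have h2 := canf_lt hx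
  rw [h1, val_ps (by omega)]
  exact h2

theorem Pre.congr {a b : ℕ} {X X' : Perm (ZMod (2 * n))} (h : Pre a b X)
    (hab : 4 * a + 2 * b ≤ 2 * n) (h' : ∀ x : ZMod (2 * n), x.val < 4 * a + 2 * b → X' x = X x) :
    Pre a b X' := by
  refine ⟨fun i hi => ⟨?_, ?_⟩, fun i hi => ?_⟩
  · rw [h' _ (by rw [val_ps (by omega)]; omega)]
    exact (h.1 i hi).1
  · rw [h' _ (by rw [val_ps (by omega)]; omega)]
    exact (h.1 i hi).2
  · rw [h' _ (by rw [val_ps (by omega)]; omega)]
    exact h.2 i hi

theorem Pre.mono {a b b' : ℕ} {X : Perm (ZMod (2 * n))} (h : Pre a b X) (hb : b' ≤ b) :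
    Pre a b' X := ⟨h.1, fun i hi => h.2 i (by omega)⟩

theorem Pre.unique [NeZero (2 * n)] {a b : ℕ} {X Y : Perm (ZMod (2 * n))} (hX : IsDiag X)
    (hY : IsDiag Y) (h : Pre a b X) (h' : Pre a b Y) (hab : 2 * a + b = n) : X = Y := by
  ext x
  have hx := ZMod.val_lt x
  have h1 := h.apply hX (v := x.val) (by omega)
  have h2 := h'.apply hY (v := x.val) (by omega)
  rw [ps_val] at h1 h2
  rw [h1, h2]

/-- Extracting one more block. -/
theorem extract [NeZero (2 * n)] (a b : ℕ) (X : Perm (ZMod (2 * n))) (hX : IsDiag X)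
    (h : Pre a (b + 1) X) (hab : 2 * a + (b + 1) < n) :
    ∃ (X' : Perm (ZMod (2 * n))) (k : ℕ), k ≤ 5 ∧ Rch (rot n) k X X' ∧ IsDiag X' ∧
      (Pre a (b + 2) X' ∨ (Pre a b X' ∧ 2 * a + b + 3 ≤ n ∧
        X' (ps n (4 * a + 2 * b)) = ps n (4 * a + 2 * b + 2) ∧
        X' (ps n (4 * a + 2 * b + 1)) = ps n (4 * a + 2 * b + 3) ∧
        X' (ps n (4 * a + 2 * b + 4)) = ps n (4 * a + 2 * b + 5))) := by
  obtain ⟨j, hj⟩ : ∃ j, j = 4 * a + 2 * b := ⟨_, rfl⟩
  have hleaf : X (ps n j) = ps n (j + 1) := by rw [hj]; exact h.2 b (by omega)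
  have hpre : Pre a b X := h.mono (by omega)
  -- the partner of a far away position is far away
  have hfar : ∀ v, j + 2 ≤ v → v < 2 * n → j + 2 ≤ (X (ps n v)).val := by
    intro v hv1 hv2
    by_contra hlt
    have h1 := h.closed hX (by omega) (X (ps n v)) (by omega)
    rw [hX.1, val_ps hv2] at h1
    omega
  have hsucc : ∀ X' : Perm (ZMod (2 * n)), Pre a b X' → X' (ps n j) = ps n (j + 1) →
      X' (ps n (j + 2)) = ps n (j + 3) → Pre a (b + 2) X' := by
    intro X' h1 h2 h3
    refine ⟨h1.1, fun i hi => ?_⟩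
    rcases Nat.lt_or_ge i b with h4 | h4
    · exact h1.2 i h4
    · have h5 : i = b ∨ i = b + 1 := by omega
      rcases h5 with rfl | rfl
      · rw [← hj]; exact h2
      · have e1 : 4 * a + 2 * (b + 1) = j + 2 := by omega
        rw [e1]
        exact h3
  have hval2 := hfar (j + 2) le_rfl (by omega)
  have hvne : ∀ v, v < 2 * n → (X (ps n v)).val ≠ v := by
    intro v hv e
    apply hX.2 (ps n v)
    apply ZMod.val_injective
    rw [e, val_ps hv]
  have hvlt : ∀ x : ZMod (2 * n), x.val < 2 * n := fun x => ZMod.val_lt x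
  have hXval : ∀ v w, w < 2 * n → (X (ps n v)).val = w → X (ps n v) = ps n w := by
    intro v w hw e
    apply ZMod.val_injective
    rw [e, val_ps hw]
  by_cases hR : j + 8 ≤ 2 * n
  · -- the generic case
    have hclosed := hpre.closed hX (by omega)
    rw [← hj] at hclosed
    obtain ⟨X', k, g1, g2, g3, g4, g5⟩ := window_step (rot n) X hX (fun i => ps n (j + i))
      (by
        intro i hi k hk e
        have := ps_inj (by omega) (by omega) e
        omega)
      (by
        intro i hi
        rw [rot_ps]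
        rfl)
      hleaf {x | x.val < j} (fun x hx => hclosed x hx)
      (by
        intro i hi
        simp only [Set.mem_ofPred_eq]
        rw [val_ps (by omega)]
        omega)
      (by
        intro x hx
        have hx' : x.val < j := hx
        have e : rot n x = ps n (x.val + 1) := by
          rw [← rot_ps, ps_val]
        rw [e]
        rcases Nat.lt_or_ge (x.val + 1) j with h1 | h1
        · left
          change (ps n (x.val + 1)).val < j
          rw [val_ps (by omega)]
          exact h1
        · right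
          congr 1
          omega)
      (fun S hS hS' => rot_trans S hS hS')
    refine ⟨X', k, g1, g2, g3, ?_⟩
    have hpre' : Pre a b X' := hpre.congr (by omega) (fun x hx => g4 x (by
      rw [← hj] at hx
      exact hx))
    rcases g5 with ⟨g5, g6⟩ | ⟨g5, g6, g7⟩
    · left
      exact hsucc X' hpre' g5 g6
    · right
      rw [← hj]
      exact ⟨hpre', by omega, g5, g6, g7⟩
  · by_cases hR6 : j + 6 ≤ 2 * n
    · have h2n : 2 * n = j + 6 := by omega
      have hu : ∀ i < 6, ∀ k < 6, ps n (j + i) = ps n (j + k) → i = k := by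
        intro i hi k hk e
        have := ps_inj (by omega) (by omega) e
        omega
      have hoff : ∀ X' : Perm (ZMod (2 * n)), (∀ x, (∀ i < 6, x ≠ ps n (j + i)) → X' x = X x) →
          Pre a b X' := by
        intro X' hX'
        apply hpre.congr (by omega)
        intro x hx
        apply hX'
        intro i hi e
        rw [e, val_ps (by omega)] at hx
        omega
      have h3 : (X (ps n (j + 2))).val = j + 3 ∨ (X (ps n (j + 2))).val = j + 4 ∨
          (X (ps n (j + 2))).val = j + 5 := by
        have h4 := hvlt (X (ps n (j + 2)))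
        have h5 := hvne (j + 2) (by omega)
        omega
      rcases h3 with h3 | h3 | h3
      · exact ⟨X, 0, by norm_num, Rch.refl X, hX, Or.inl (hsucc X hpre hleaf
          (hXval _ _ (by omega) h3))⟩
      · have h24 := hXval _ _ (by omega) h3
        have h35 : X (ps n (j + 3)) = ps n (j + 5) := by
          apply hXval _ _ (by omega)
          have h4 := hvlt (X (ps n (j + 3)))
          have h5 := hvne (j + 3) (by omega)
          have h6 := hfar (j + 3) (by omega) (by omega)
          have h7 : (X (ps n (j + 3))).val ≠ j + 2 := by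
            intro e
            have e1 := hXval _ _ (by omega) e
            have e2 := congrArg X e1
            rw [hX.1, h24] at e2
            have := ps_inj (by omega) (by omega) e2
            omega
          have h8 : (X (ps n (j + 3))).val ≠ j + 4 := by
            intro e
            have e1 := hXval _ _ (by omega) e
            rw [← h24] at e1
            have := ps_inj (by omega) (by omega) (X.injective e1)
            omega
          omega
        obtain ⟨X', k, g1, g2, g3, ⟨g4, g5, g6⟩, g7⟩ := LH_step (rot n) X hX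
          (fun i => ps n (j + i)) hu (by
            intro i hi
            rw [rot_ps]
            rfl) hleaf h24 h35
        refine ⟨X', k, by omega, g2, g3, Or.inr ⟨hoff X' g7, by omega, ?_, ?_, ?_⟩⟩
        · rw [← hj]; exact g4
        · rw [← hj]; exact g5
        · rw [← hj]; exact g6
      · have h25 := hXval _ _ (by omega) h3
        have h34 : X (ps n (j + 3)) = ps n (j + 4) := by
          apply hXval _ _ (by omega)
          have h4 := hvlt (X (ps n (j + 3)))
          have h5 := hvne (j + 3) (by omega)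
          have h6 := hfar (j + 3) (by omega) (by omega)
          have h7 : (X (ps n (j + 3))).val ≠ j + 2 := by
            intro e
            have e1 := hXval _ _ (by omega) e
            have e2 := congrArg X e1
            rw [hX.1, h25] at e2
            have := ps_inj (by omega) (by omega) e2
            omega
          have h8 : (X (ps n (j + 3))).val ≠ j + 5 := by
            intro e
            have e1 := hXval _ _ (by omega) e
            rw [← h25] at e1
            have := ps_inj (by omega) (by omega) (X.injective e1)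
            omega
          omega
        obtain ⟨X', k, g1, g2, g3, ⟨g4, g5⟩, g7⟩ := nest_step (rot n) X hX
          (fun i => ps n (j + i)) hu (by
            intro i hi
            rw [rot_ps]
            rfl) hleaf h25 h34
        exact ⟨X', k, by omega, g2, g3, Or.inl (hsucc X' (hoff X' g7) g4 g5)⟩
    · have h2n : 2 * n = j + 4 := by omega
      refine ⟨X, 0, by norm_num, Rch.refl X, hX, Or.inl (hsucc X hpre hleaf ?_)⟩
      apply hXval _ _ (by omega)
      have h4 := hvlt (X (ps n (j + 2)))
      have h5 := hvne (j + 2) (by omega)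
      omega

end positions

section normal

variable {n : ℕ}

theorem ps_leaf_reach (a e : ℕ) (X : Perm (ZMod (2 * n))) (h : Pre a e X) (f : ZMod (2 * n) → ZMod (2 * n))
    (P : Set (ZMod (2 * n))) (hP : ∀ v, 4 * a + 4 ≤ v → v < 4 * a + 2 * e → ps n v ∉ P)
    (h3 : f (ps n (4 * a + 3)) = ps n (4 * a + 4))
    (hf : ∀ x, x ∉ P → f x = rot n (X x)) :
    ∀ s, 4 * a + 4 + 2 * s ≤ 4 * a + 2 * e →
      Reach f P (ps n (4 * a + 3)) (ps n (4 * a + 4 + 2 * s)) := by
  intro s
  induction s with
  | zero =>
    intro _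
    have : Reach f P (ps n (4 * a + 3)) (f (ps n (4 * a + 3))) := Reach.one
    rw [h3] at this
    exact this
  | succ s ih =>
    intro hs
    have h1 := ih (by omega)
    have h2 := hP (4 * a + 4 + 2 * s) (by omega) (by omega)
    have h4 : f (ps n (4 * a + 4 + 2 * s)) = ps n (4 * a + 4 + 2 * (s + 1)) := by
      rw [hf _ h2]
      have h5 := h.2 (s + 2) (by omega)
      have e1 : 4 * a + 2 * (s + 2) = 4 * a + 4 + 2 * s := by ring
      rw [e1] at h5
      rw [h5, rot_ps]
      congr 1
    rw [← h4]
    exact Reach.step h1 h2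

/-- Moving a handle in front of an even number of leaves. -/
theorem insert_even [NeZero (2 * n)] (a e t : ℕ) (X : Perm (ZMod (2 * n))) (hX : IsDiag X)
    (h : Pre a e X) (he : e % 2 = 0) (hn : 4 * a + 2 * e + 4 + 2 * t ≤ 2 * n)
    (h1 : X (ps n (4 * a + 2 * e)) = ps n (4 * a + 2 * e + 2))
    (h2 : X (ps n (4 * a + 2 * e + 1)) = ps n (4 * a + 2 * e + 3))
    (ht : ∀ s < t, X (ps n (4 * a + 2 * e + 4 + 2 * s)) = ps n (4 * a + 2 * e + 4 + 2 * s + 1)) :
    ∃ (X' : Perm (ZMod (2 * n))) (k : ℕ), k ≤ 4 ∧ Rch (rot n) k X X' ∧ IsDiag X' ∧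
      Pre (a + 1) (e + t) X' := by
  rcases Nat.eq_zero_or_pos e with h0 | h0
  · subst h0
    refine ⟨X, 0, by norm_num, Rch.refl X, hX, ?_, ?_⟩
    · intro i hi
      rcases Nat.lt_or_ge i a with h3 | h3
      · exact h.1 i h3
      · have : i = a := by omega
        subst this
        exact ⟨h1, h2⟩
    · intro i hi
      have := ht i (by omega)
      have e1 : 4 * a + 2 * 0 + 4 + 2 * i = 4 * (a + 1) + 2 * i := by ring
      rw [e1] at this
      exact this
  · obtain ⟨j, hj⟩ : ∃ j, j = 4 * a + 2 * e := ⟨_, rfl⟩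
    obtain ⟨X', k, g1, g2, g3, ⟨g4, g5, g6, g7⟩, g8⟩ := exch_step (rot n) X hX
      (fun i => ps n (4 * a + i)) (fun i => ps n (j + i))
      (by
        intro i hi k hk e
        have := ps_inj (by omega) (by omega) e
        omega)
      (by
        intro i hi k hk e
        have := ps_inj (by omega) (by omega) e
        omega)
      (by
        intro i hi k hk e
        have := ps_inj (by omega) (by omega) e
        omega)
      (by
        intro i hi
        rw [rot_ps]
        rfl)
      (by
        intro i hi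
        rw [rot_ps]
        rfl)
      (by
        intro P hP f hf1 hf2
        obtain ⟨s, hs⟩ : ∃ s, j = 4 * a + 4 + 2 * s := ⟨e - 2, by omega⟩
        have h3 : f (ps n (4 * a + 3)) = ps n (4 * a + 4) := by
          rw [hf1 _ ((hP _).2 (Or.inl ⟨3, by norm_num, rfl⟩)), rot_ps]
        have h4 := ps_leaf_reach a e X h f P (by
          intro v hv1 hv2 hv3
          rcases (hP _).1 hv3 with ⟨i, hi, e1⟩ | ⟨i, hi, e1⟩
          · have := ps_inj (by omega) (by omega) e1
            omega
          · have := ps_inj (by omega) (by omega) e1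
            omega) h3 hf2 s (by omega)
        rw [← hs] at h4
        exact h4)
      (by
        have := h.2 0 (by omega)
        exact this)
      (by
        have := h.2 1 (by omega)
        exact this)
      (by rw [hj]; exact h1)
      (by rw [hj]; exact h2)
    refine ⟨X', k, g1, g2, g3, ?_, ?_⟩
    · intro i hi
      rcases Nat.lt_or_ge i a with h3 | h3
      · have key : ∀ v, v < 4 * a → X' (ps n v) = X (ps n v) := by
          intro v hv
          apply g8
          · intro i' hi' e1
            have := ps_inj (by omega) (by omega) e1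
            omega
          · intro i' hi' e1
            have := ps_inj (by omega) (by omega) e1
            omega
        rw [key _ (by omega), key _ (by omega)]
        exact h.1 i h3
      · have : i = a := by omega
        subst this
        exact ⟨g4, g5⟩
    · intro i hi
      have key : ∀ v, 4 * a + 4 ≤ v → v < 2 * n → (v < j ∨ j + 4 ≤ v) →
          X' (ps n v) = X (ps n v) := by
        intro v hv hv2 hv3
        apply g8
        · intro i' hi' e1
          have := ps_inj (by omega) (by omega) e1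
          omega
        · intro i' hi' e1
          have := ps_inj (by omega) (by omega) e1
          omega
      rcases Nat.lt_or_ge (i + 2) e with h3 | h3
      · rw [key _ (by omega) (by omega) (by omega)]
        have := h.2 (i + 2) (by omega)
        have e1 : 4 * a + 2 * (i + 2) = 4 * (a + 1) + 2 * i := by ring
        rw [e1] at this
        exact this
      · rcases Nat.lt_or_ge i e with h4 | h4
        · have h5 : i + 2 = e ∨ i + 1 = e := by omega
          rcases h5 with h5 | h5
          · have e1 : 4 * (a + 1) + 2 * i = j + 0 := by omega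
            rw [e1]
            exact g6
          · have e1 : 4 * (a + 1) + 2 * i = j + 2 := by omega
            rw [e1]
            exact g7
        · rw [key _ (by omega) (by omega) (by omega)]
          have := ht (i - e) (by omega)
          have e1 : 4 * a + 2 * e + 4 + 2 * (i - e) = 4 * (a + 1) + 2 * i := by omega
          rw [e1] at this
          exact this

/-- Moving a handle in front of the leaves. -/
theorem insert_all [NeZero (2 * n)] (a e : ℕ) (X : Perm (ZMod (2 * n))) (hX : IsDiag X)
    (h : Pre a e X) (hn : 4 * a + 2 * e + 6 ≤ 2 * n)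
    (h1 : X (ps n (4 * a + 2 * e)) = ps n (4 * a + 2 * e + 2))
    (h2 : X (ps n (4 * a + 2 * e + 1)) = ps n (4 * a + 2 * e + 3))
    (h3 : X (ps n (4 * a + 2 * e + 4)) = ps n (4 * a + 2 * e + 5)) :
    ∃ (X' : Perm (ZMod (2 * n))) (k : ℕ), k ≤ 6 ∧ Rch (rot n) k X X' ∧ IsDiag X' ∧
      Pre (a + 1) (e + 1) X' := by
  rcases Nat.mod_two_eq_zero_or_one e with he | he
  · obtain ⟨X', k, g1, g2, g3, g4⟩ := insert_even a e 1 X hX h he (by omega) h1 h2 (by
      intro s hs
      have : s = 0 := by omega
      subst this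
      exact h3)
    exact ⟨X', k, by omega, g2, g3, g4⟩
  · obtain ⟨e', rfl⟩ : ∃ e', e = e' + 1 := ⟨e - 1, by omega⟩
    obtain ⟨j, hj⟩ : ∃ j, j = 4 * a + 2 * e' := ⟨_, rfl⟩
    have e1 : 4 * a + 2 * (e' + 1) = j + 2 := by omega
    rw [e1] at h1 h2 h3
    obtain ⟨X', k, g1, g2, g3, ⟨g4, g5, g6⟩, g7⟩ := LH_step (rot n) X hX (fun i => ps n (j + i))
      (by
        intro i hi k hk e
        have := ps_inj (by omega) (by omega) e
        omega)
      (by
        intro i hi
        rw [rot_ps]
        rfl)
      (by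
        have := h.2 e' (by omega)
        rw [← hj] at this
        exact this) h1 h2
    have hpre' : Pre a e' X' := by
      apply (h.mono (by omega)).congr (by omega)
      intro x hx
      apply g7
      intro i hi e2
      rw [e2, val_ps (by omega)] at hx
      omega
    obtain ⟨X'', k', f1, f2, f3, f4⟩ := insert_even a e' 2 X' g3 hpre' (by omega) (by omega)
      (by rw [← hj]; exact g4) (by rw [← hj]; exact g5) (by
        intro s hs
        rw [← hj]
        have h5 : s = 0 ∨ s = 1 := by omega
        rcases h5 with rfl | rfl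
        · exact g6
        · have : X' (ps n (j + 6)) = X (ps n (j + 6)) := by
            apply g7
            intro i hi e2
            have := ps_inj (by omega) (by omega) e2
            omega
          change X' (ps n (j + 6)) = _
          rw [this]
          exact h3)
    exact ⟨X'', k + k', by omega, g2.trans f2, f3, f4⟩

/-- Reaching a normal form from a leaf at position `0`. -/
theorem normalise [NeZero (2 * n)] : ∀ (d a b : ℕ) (X : Perm (ZMod (2 * n))), IsDiag X →
    Pre a (b + 1) X → 2 * a + (b + 1) + d = n →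
    ∃ (X' : Perm (ZMod (2 * n))) (a' b' k : ℕ), k ≤ 11 * d ∧ Rch (rot n) k X X' ∧ IsDiag X' ∧
      Pre a' b' X' ∧ 2 * a' + b' = n := by
  intro d
  induction d using Nat.strong_induction_on with
  | _ d ih =>
  intro a b X hX h hd
  rcases Nat.eq_zero_or_pos d with h0 | h0
  · subst h0
    exact ⟨X, a, b + 1, 0, by omega, Rch.refl X, hX, h, by omega⟩
  · obtain ⟨X', k, g1, g2, g3, g4⟩ := extract a b X hX h (by omega)
    rcases g4 with g4 | ⟨g4, g5, g6, g7, g8⟩
    · obtain ⟨X'', a', b', k', f1, f2, f3, f4, f5⟩ := ih (d - 1) (by omega) a (b + 1) X' g3 g4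
        (by omega)
      exact ⟨X'', a', b', k + k', by omega, g2.trans f2, f3, f4, f5⟩
    · obtain ⟨X1, k1, e1, e2, e3, e4⟩ := insert_all a b X' g3 g4 (by omega) g6 g7 g8
      obtain ⟨X'', a', b', k', f1, f2, f3, f4, f5⟩ := ih (d - 2) (by omega) (a + 1) b X1 e3 e4
        (by omega)
      exact ⟨X'', a', b', k + k1 + k', by omega, (g2.trans e2).trans f2, f3, f4, f5⟩

/-- Moving a leaf to position `0`. -/
theorem move_leaf [NeZero (2 * n)] (hn : 3 ≤ n) : ∀ (d p : ℕ) (X : Perm (ZMod (2 * n))),
    IsDiag X → p + d = 2 * n → X (ps n p) = ps n (p + 1) →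
    ∃ (X' : Perm (ZMod (2 * n))) (k : ℕ), k ≤ d ∧ Rch (rot n) k X X' ∧ IsDiag X' ∧
      X' (ps n 0) = ps n 1 := by
  have h2n : ps n (2 * n) = ps n 0 := by simp [ps]
  have h2n1 : ps n (2 * n + 1) = ps n 1 := by
    rw [← rot_ps, h2n, rot_ps]
  intro d
  induction d with
  | zero =>
    intro p X hX hp h
    have : p = 2 * n := by omega
    subst this
    rw [h2n, h2n1] at h
    exact ⟨X, 0, le_rfl, Rch.refl X, hX, h⟩
  | succ d ih =>
    intro p X hX hp h
    obtain ⟨X', k, g1, g2, g3, g4⟩ := shift_step (rot n) X hX (ps n p) (by rw [h, rot_ps]) (by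
      rw [rot_ps, rot_ps]
      intro e
      have e2 : ps n (p + 1 + 1) = ps n p + 2 := by
        simp only [ps]
        push_cast
        ring
      rw [e2] at e
      have e3 : (2 : ZMod (2 * n)) = 0 := by simpa using e
      have e4 : ps n 2 = ps n 0 := by
        simp only [ps]
        push_cast
        exact e3
      have := ps_inj (by omega) (by omega) e4
      omega)
    rw [rot_ps, rot_ps] at g4
    obtain ⟨X'', k', f1, f2, f3, f4⟩ := ih (p + 1) X' g3 (by omega) g4
    exact ⟨X'', k + k', by omega, g2.trans f2, f3, f4⟩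

/-- Finding a first leaf. -/
theorem first_leaf [NeZero (2 * n)] (hn : 3 ≤ n) (X : Perm (ZMod (2 * n))) (hX : IsDiag X)
    (hV : 2 ≤ orb (rot n * X)) :
    ∃ (X' : Perm (ZMod (2 * n))) (k p : ℕ), k ≤ 2 ∧ Rch (rot n) k X X' ∧ IsDiag X' ∧ p ≤ 2 * n ∧
      X' (ps n p) = ps n (p + 1) := by
  obtain ⟨x, hx⟩ : ∃ x, cls (rot n * X) x ≠ cls (rot n * X) (rot n x) := by
    by_contra hno
    push Not at hno
    have h1 : ∀ x, cls (rot n * X) x = cls (rot n * X) 0 := by
      intro x
      have := rot_trans {x | cls (rot n * X) x = cls (rot n * X) 0} ⟨0, rfl⟩ (by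
        intro y hy
        change cls (rot n * X) (rot n y) = _
        rw [← hno y]
        exact hy) x
      exact this
    have h2 : Subsingleton (Quot fun a b : ZMod (2 * n) => b = (rot n * X) a) := by
      constructor
      intro p q
      induction p using Quot.ind with
      | mk a =>
        induction q using Quot.ind with
        | mk b => exact (h1 a).trans (h1 b).symm
    have h3 : orb (rot n * X) ≤ 1 := by
      unfold orb
      exact Finite.card_le_one_iff_subsingleton.2 h2
    omega
  have hr1 : rot n x = x + 1 := rfl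
  have e1 : (1 : ZMod (2 * n)) ≠ 0 := by
    intro e
    have e4 : ps n 1 = ps n 0 := by
      simp only [ps]
      push_cast
      exact e
    have := ps_inj (by omega) (by omega) e4
    omega
  have e2 : (2 : ZMod (2 * n)) ≠ 0 := by
    intro e
    have e4 : ps n 2 = ps n 0 := by
      simp only [ps]
      push_cast
      exact e
    have := ps_inj (by omega) (by omega) e4
    omega
  have hfin : ∀ (X' : Perm (ZMod (2 * n))) (y : ZMod (2 * n)), X' y = y + 1 →
      ∃ p, p ≤ 2 * n ∧ X' (ps n p) = ps n (p + 1) := by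
    intro X' y hy
    refine ⟨y.val, (ZMod.val_lt y).le, ?_⟩
    rw [← rot_ps, ps_val, hy]
    rfl
  obtain ⟨X', k, g1, g2, g3, g4⟩ := boot_step (rot n) X hX (x - 1) x (x + 1)
    (by change x - 1 + 1 = x; ring) rfl
    (by
      intro e
      apply e1
      have : x - (x - 1) = 0 := sub_eq_zero.2 e.symm
      rw [← this]
      ring)
    (by
      intro e
      apply e2
      have : (x + 1) - (x - 1) = 0 := sub_eq_zero.2 e.symm
      rw [← this]
      ring)
    (by
      intro e
      apply e1
      have : (x + 1) - x = 0 := sub_eq_zero.2 e.symm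
      rw [← this]
      ring)
    hx
  rcases g4 with g4 | g4
  · obtain ⟨p, hp, hp2⟩ := hfin X' (x - 1) (by rw [g4]; ring)
    exact ⟨X', k, p, g1, g2, g3, hp, hp2⟩
  · obtain ⟨p, hp, hp2⟩ := hfin X' x g4
    exact ⟨X', k, p, g1, g2, g3, hp, hp2⟩

/-- Every diagram with at least two vertices is close to a normal form. -/
theorem to_normal [NeZero (2 * n)] (hn : 3 ≤ n) (X : Perm (ZMod (2 * n))) (hX : IsDiag X)
    (hV : 2 ≤ orb (rot n * X)) :
    ∃ (X' : Perm (ZMod (2 * n))) (a b k : ℕ), k ≤ 13 * n ∧ Rch (rot n) k X X' ∧ IsDiag X' ∧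
      Pre a b X' ∧ 2 * a + b = n := by
  obtain ⟨X1, k1, p, g1, g2, g3, g4, g5⟩ := first_leaf hn X hX hV
  obtain ⟨X2, k2, f1, f2, f3, f4⟩ := move_leaf hn (2 * n - p) p X1 g3 (by omega) g5
  obtain ⟨X3, a, b, k3, e1, e2, e3, e4, e5⟩ := normalise (n - 1) 0 0 X2 f3 (by
    refine ⟨fun i hi => absurd hi (by omega), fun i hi => ?_⟩
    have : i = 0 := by omega
    subst this
    exact f4) (by omega)
  exact ⟨X3, a, b, k1 + k2 + k3, by omega, (g2.trans f2).trans e2, e3, e4, e5⟩

/-- The diagram all of whose pairs are leaves. -/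
theorem all_leaves [NeZero (2 * n)] (hn : 1 ≤ n) :
    ∃ X : Perm (ZMod (2 * n)), IsDiag X ∧ Pre 0 n X ∧ orb (rot n * X) = n + 1 := by
  have hc : ∀ v < 2 * n, canf 0 v < 2 * n := fun v hv => by
    have := canf_lt (a := 0) (b := n) (v := v) (by omega)
    omega
  have hcc : ∀ v, canf 0 (canf 0 v) = v := by
    intro v
    simp only [canf]
    split_ifs <;> omega
  let F : ZMod (2 * n) → ZMod (2 * n) := fun x => ps n (canf 0 x.val)
  have hFps : ∀ v < 2 * n, F (ps n v) = ps n (canf 0 v) := by
    intro v hv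
    simp only [F]
    rw [val_ps hv]
  have hinv : Function.Involutive F := by
    intro x
    change F (ps n (canf 0 x.val)) = x
    rw [hFps _ (hc _ (ZMod.val_lt x)), hcc, ps_val]
  let X : Perm (ZMod (2 * n)) := hinv.toPerm
  have hXps : ∀ v < 2 * n, X (ps n v) = ps n (canf 0 v) := hFps
  have hX : IsDiag X := by
    refine ⟨hinv, ?_⟩
    intro x hx
    have h1 := hXps x.val (ZMod.val_lt x)
    rw [ps_val, hx] at h1
    have h2 : x.val = canf 0 x.val := by
      conv_lhs => rw [h1]
      exact val_ps (hc _ (ZMod.val_lt x))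
    simp only [canf] at h2
    split_ifs at h2 <;> omega
  have hpre : Pre 0 n X := by
    refine ⟨fun i hi => absurd hi (by omega), fun i hi => ?_⟩
    rw [hXps _ (by omega)]
    congr 1
    simp only [canf]
    split_ifs <;> omega
  refine ⟨X, hX, hpre, ?_⟩
  have heven : ∀ v, v % 2 = 0 → v < 2 * n → (rot n * X) (ps n v) = ps n (v + 2) := by
    intro v hv hv2
    rw [Perm.mul_apply, hXps v hv2, rot_ps]
    congr 1
    simp only [canf]
    split_ifs <;> omega
  have hodd : ∀ v, v % 2 = 1 → v < 2 * n → (rot n * X) (ps n v) = ps n v := by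
    intro v hv hv2
    rw [Perm.mul_apply, hXps v hv2, rot_ps]
    congr 1
    simp only [canf]
    split_ifs <;> omega
  have hcls : ∀ t, 2 * t < 2 * n → cls (rot n * X) (ps n (2 * t)) = cls (rot n * X) (ps n 0) := by
    intro t
    induction t with
    | zero => intro _; rfl
    | succ t ih =>
      intro ht
      rw [← ih (by omega), ← cls_apply (rot n * X) (ps n (2 * t)), heven (2 * t) (by omega)
        (by omega)]
      congr 1
  let G0 : ZMod (2 * n) → Option (Fin n) := fun x =>
    if h : x.val % 2 = 1 then some ⟨x.val / 2, by have := ZMod.val_lt x; omega⟩ else none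
  have hG0o : ∀ v (hv : v % 2 = 1) (hv2 : v < 2 * n), G0 (ps n v) = some ⟨v / 2, by omega⟩ := by
    intro v hv hv2
    have h1 : (ps n v).val = v := val_ps hv2
    have h2 : (ps n v).val % 2 = 1 := by rw [h1]; exact hv
    simp only [G0, dif_pos h2, h1]
  have hG0e : ∀ v (hv : v % 2 = 0) (hv2 : v < 2 * n), G0 (ps n v) = none := by
    intro v hv hv2
    have h1 : (ps n v).val = v := val_ps hv2
    have h2 : ¬ (ps n v).val % 2 = 1 := by rw [h1]; omega
    simp only [G0, dif_neg h2]
  let G : Quot (fun a b : ZMod (2 * n) => b = (rot n * X) a) → Option (Fin n) := Quot.lift G0 (by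
    intro x y hxy
    subst hxy
    have hx := ZMod.val_lt x
    rcases Nat.mod_two_eq_zero_or_one x.val with h1 | h1
    · have h2 := heven x.val h1 hx
      rw [ps_val] at h2
      rw [h2]
      have h3 := hG0e x.val h1 hx
      rw [ps_val] at h3
      rw [h3]
      rcases Nat.lt_or_ge (x.val + 2) (2 * n) with h4 | h4
      · rw [hG0e _ (by omega) h4]
      · have h5 : x.val + 2 = 2 * n := by omega
        have h6 : ps n (x.val + 2) = ps n 0 := by
          rw [h5]
          simp [ps]
        rw [h6, hG0e 0 (by omega) (by omega)]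
    · have h2 := hodd x.val h1 hx
      rw [ps_val] at h2
      rw [h2])
  have hbij : Function.Bijective G := by
    constructor
    · intro p q hpq
      induction p using Quot.ind with
      | mk x =>
        induction q using Quot.ind with
        | mk y =>
          have hx := ZMod.val_lt x
          have hy := ZMod.val_lt y
          change G0 x = G0 y at hpq
          change cls _ x = cls _ y
          rcases Nat.mod_two_eq_zero_or_one x.val with h1 | h1 <;>
            rcases Nat.mod_two_eq_zero_or_one y.val with h2 | h2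
          · have h3 := hcls (x.val / 2) (by omega)
            have h4 := hcls (y.val / 2) (by omega)
            have e1 : 2 * (x.val / 2) = x.val := by omega
            have e2 : 2 * (y.val / 2) = y.val := by omega
            rw [e1, ps_val] at h3
            rw [e2, ps_val] at h4
            rw [h3, h4]
          · exfalso
            have h3 := hG0e x.val h1 hx
            have h4 := hG0o y.val h2 hy
            rw [ps_val] at h3 h4
            rw [h3, h4] at hpq
            simp at hpq
          · exfalso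
            have h3 := hG0o x.val h1 hx
            have h4 := hG0e y.val h2 hy
            rw [ps_val] at h3 h4
            rw [h3, h4] at hpq
            simp at hpq
          · have h3 := hG0o x.val h1 hx
            have h4 := hG0o y.val h2 hy
            rw [ps_val] at h3 h4
            rw [h3, h4] at hpq
            simp only [Option.some.injEq, Fin.mk.injEq] at hpq
            have h5 : x.val = y.val := by omega
            rw [ZMod.val_injective _ h5]
    · intro o
      match o with
      | none => exact ⟨Quot.mk _ (ps n 0), hG0e 0 (by omega) (by omega)⟩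
      | some i =>
        refine ⟨Quot.mk _ (ps n (2 * i + 1)), ?_⟩
        change G0 _ = _
        rw [hG0o _ (by omega) (by have := i.2; omega)]
        congr 1
        apply Fin.ext
        change (2 * (i : ℕ) + 1) / 2 = i
        omega
  unfold orb
  rw [Nat.card_congr (Equiv.ofBijective G hbij), Finite.card_option, Nat.card_fin]

/-- The number of orbits of the normal forms. -/
theorem exists_normal [NeZero (2 * n)] (hn : 1 ≤ n) : ∀ a b, 2 * a + b = n →
    ∃ X : Perm (ZMod (2 * n)), IsDiag X ∧ Pre a b X ∧ orb (rot n * X) = b + 1 := by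
  intro a
  induction a with
  | zero =>
    intro b hb
    have : b = n := by omega
    subst this
    exact all_leaves hn
  | succ a ih =>
    intro b hb
    obtain ⟨X, hX, hpre, hV⟩ := ih (b + 2) (by omega)
    obtain ⟨X', g1, g2, g3, g4, g5⟩ := handle_step (rot n) X hX (fun i => ps n (4 * a + i))
      (by
        intro i hi k hk e
        have := ps_inj (by omega) (by omega) e
        omega)
      (by
        intro i hi
        rw [rot_ps]
        rfl)
      (by exact hpre.2 0 (by omega)) (by exact hpre.2 1 (by omega))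
    refine ⟨X', g1, ⟨?_, ?_⟩, by omega⟩
    · intro i hi
      rcases Nat.lt_or_ge i a with h3 | h3
      · have key : ∀ v, v < 4 * a → X' (ps n v) = X (ps n v) := by
          intro v hv
          apply g4
          intro i' hi' e1
          have := ps_inj (by omega) (by omega) e1
          omega
        rw [key _ (by omega), key _ (by omega)]
        exact hpre.1 i h3
      · have : i = a := by omega
        subst this
        exact ⟨g2, g3⟩
    · intro i hi
      have key : ∀ v, 4 * a + 4 ≤ v → v < 2 * n → X' (ps n v) = X (ps n v) := by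
        intro v hv hv2
        apply g4
        intro i' hi' e1
        have := ps_inj (by omega) (by omega) e1
        omega
      rw [key _ (by omega) (by omega)]
      have := hpre.2 (i + 2) (by omega)
      have e1 : 4 * a + 2 * (i + 2) = 4 * (a + 1) + 2 * i := by ring
      rw [e1] at this
      exact this

theorem orb_normal [NeZero (2 * n)] (hn : 1 ≤ n) (a b : ℕ) (hab : 2 * a + b = n)
    (X : Perm (ZMod (2 * n))) (hX : IsDiag X) (h : Pre a b X) : orb (rot n * X) = b + 1 := by
  obtain ⟨Y, hY, hY2, hV⟩ := exists_normal hn a b hab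
  rw [Pre.unique hX hY h hY2 hab]
  exact hV

end normal

/-! ### The main theorem -/

theorem vertexClasses_eq {n : ℕ} (X : ChordDiagram n) :
    vertexClasses X = orb (rot n * X.glue) := rfl

theorem isDiag_glue {n : ℕ} (X : ChordDiagram n) : IsDiag X.glue := ⟨X.invol, X.noFix⟩

theorem rch_walk {n g k : ℕ} {X Y : Perm (ZMod (2 * n))} (h : Rch (rot n) k X Y) :
    ∀ x : CG n g, x.1.glue = X →
      ∃ y : CG n g, y.1.glue = Y ∧ ∃ p : (swapGraph n g).Walk x y, p.length = k := by
  induction h with
  | refl X => exact fun x hx => ⟨x, hx, SimpleGraph.Walk.nil, rfl⟩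
  | @step k X Y Z _ hZ hs hV ih =>
    intro x hx
    obtain ⟨y, hy, p, hp⟩ := ih x hx
    let z0 : ChordDiagram n := ⟨Z, hZ.1, hZ.2⟩
    have hz : vertexClasses z0 + 2 * g = n + 1 := by
      have h1 : vertexClasses z0 = vertexClasses y.1 := by
        rw [vertexClasses_eq, vertexClasses_eq, hy]
        exact hV
      rw [h1]
      exact y.2
    let z : CG n g := ⟨z0, hz⟩
    have hadj : (swapGraph n g).Adj y z := by
      unfold swapGraph
      rw [SimpleGraph.fromRel_adj]
      refine ⟨?_, Or.inl ?_⟩
      · intro e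
        obtain ⟨a, c, h1, h2, h3, _⟩ := hs
        have h4 : y.1.glue = Z := by rw [e]
        rw [hy] at h4
        rw [← h4] at h3
        exact h2 h3.symm
      · change IsChordSwap y.1 z0
        unfold IsChordSwap
        rw [hy]
        exact hs
    exact ⟨z, rfl, p.append (SimpleGraph.Walk.cons hadj SimpleGraph.Walk.nil), by simp [hp]⟩

theorem to_normal_walk {n g : ℕ} (hn : 3 ≤ n) (hg : 2 * g < n) (x : CG n g) :
    ∃ y : CG n g, Pre g (n - 2 * g) y.1.glue ∧
      ∃ p : (swapGraph n g).Walk x y, p.length ≤ 13 * n := by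
  have : NeZero (2 * n) := ⟨by omega⟩
  have hV := x.2
  rw [vertexClasses_eq] at hV
  obtain ⟨X', a, b, k, h1, h2, h3, h4, h5⟩ := to_normal hn x.1.glue (isDiag_glue x.1) (by omega)
  obtain ⟨y, hy, p, hp⟩ := rch_walk h2 x rfl
  have hV2 := h2.orb_eq
  rw [orb_normal (by omega) a b h5 X' h3 h4] at hV2
  have ha : a = g := by omega
  subst ha
  have hb : b = n - 2 * a := by omega
  subst hb
  exact ⟨y, by rw [hy]; exact h4, p, by omega⟩

theorem exists_walk {n g : ℕ} (hn : 3 ≤ n) (hg : 2 * g < n) (x y : CG n g) :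
    ∃ p : (swapGraph n g).Walk x y, p.length ≤ 26 * n := by
  have : NeZero (2 * n) := ⟨by omega⟩
  obtain ⟨x', hx, p, hp⟩ := to_normal_walk hn hg x
  obtain ⟨y', hy, q, hq⟩ := to_normal_walk hn hg y
  have h1 : x'.1.glue = y'.1.glue :=
    Pre.unique (isDiag_glue _) (isDiag_glue _) hx hy (by omega)
  have h2 : x' = y' := by
    apply Subtype.ext
    cases hx1 : x'.1
    cases hy1 : y'.1
    rw [hx1, hy1] at h1
    congr
  subst h2
  exact ⟨p.append q.reverse, by simp; omega⟩

theorem connected {n g : ℕ} (hn : 3 ≤ n) (hg : 2 * g < n) : (swapGraph n g).Connected := by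
  have : NeZero (2 * n) := ⟨by omega⟩
  obtain ⟨X, hX, _, hV⟩ := exists_normal (n := n) (by omega) g (n - 2 * g) (by omega)
  have : Nonempty (CG n g) := ⟨⟨⟨X, hX.1, hX.2⟩, by
    rw [vertexClasses_eq]
    change orb (rot n * X) + 2 * g = n + 1
    rw [hV]
    omega⟩⟩
  refine { preconnected := fun x y => ?_ }
  obtain ⟨p, _⟩ := exists_walk hn hg x y
  exact ⟨p⟩

theorem D_le {n g : ℕ} (hn : 3 ≤ n) (hg : 2 * g < n) : D n g ≤ 26 * n := by
  unfold D
  apply csSup_le'
  rintro d ⟨x, y, _, rfl⟩
  obtain ⟨p, hp⟩ := exists_walk hn hg x y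
  exact (SimpleGraph.dist_le p).trans hp

/-- For `n ≥ 3` and `g < n / 2` the graph `G_{n,g}` is connected with diameter at most `26 n`; hence
there is no constant `c > 0` with `D(n,g) ≥ c (n + g ^ 2)` for all `n ≥ 3`, `g ≤ n / 2`. -/
theorem result :
    (∀ n g : ℕ, 3 ≤ n → 2 * g < n → (swapGraph n g).Connected ∧ D n g ≤ 26 * n) ∧
    (∀ c : ℝ, 0 < c → ∃ n g : ℕ, 3 ≤ n ∧ 2 * g < n ∧ (D n g : ℝ) < c * (n + g ^ 2)) := by
  refine ⟨fun n g hn hg => ⟨connected hn hg, D_le hn hg⟩, ?_⟩
  intro c hc
  obtain ⟨g, hg⟩ := exists_nat_gt (78 / c)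
  have hg0 : (0 : ℝ) < g := lt_trans (by positivity) hg
  have hg1 : 1 ≤ g := by exact_mod_cast hg0
  refine ⟨2 * g + 1, g, by omega, by omega, ?_⟩
  have h1 := D_le (n := 2 * g + 1) (g := g) (by omega) (by omega)
  have h2 : (D (2 * g + 1) g : ℝ) ≤ 26 * (2 * g + 1) := by exact_mod_cast h1
  have h3 : 78 < c * g := by
    rw [div_lt_iff₀ hc] at hg
    linarith
  have h4 : (1 : ℝ) ≤ g := by exact_mod_cast hg1
  push_cast
  nlinarith [mul_pos hc hg0]

end Pool.Agent.Results.MP_84806a_co.LinearDiameter
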